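import Mathlib

/-! # Sums of powers of the primitive `d`-th roots of unity -/

namespace Pool.Agent.U332.OI

open Finset

theorem sum_prim_moebius (n : ℕ) (hn : 0 < n) :
    ∑ w ∈ primitiveRoots n ℂ, w = ((ArithmeticFunction.moebius n : ℤ) : ℂ) := by
  have h := (ArithmeticFunction.sum_eq_iff_sum_mul_moebius_eq (R := ℂ)
    (f := fun n => ∑ w ∈ primitiveRoots n ℂ, w) (g := fun n => if n = 1 then (1 : ℂ) else 0)).mp ?_
    n hn
  · rw [← h]
    rw [sum_eq_single (n, 1)]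
    · simp
    · rintro ⟨a, b⟩ hab hne
      have hb : b ≠ 1 := by
        rintro rfl
        rw [Nat.mem_divisorsAntidiagonal] at hab
        apply hne
        have := hab.1
        simp only [mul_one] at this
        rw [this]
      simp [hb]
    · intro h
      exact absurd (by rw [Nat.mem_divisorsAntidiagonal]; exact ⟨by simp, hn.ne'⟩) h
  · intro m hm
    have hz := Complex.isPrimitiveRoot_exp m hm.ne'
    have h1 : ∑ w ∈ Polynomial.nthRootsFinset m (1 : ℂ), w =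
        ∑ i ∈ m.divisors, ∑ w ∈ primitiveRoots i ℂ, w := by
      have : NeZero m := ⟨hm.ne'⟩
      rw [IsPrimitiveRoot.nthRoots_one_eq_biUnion_primitiveRoots, sum_biUnion]
      intro i _ j _ hij
      exact IsPrimitiveRoot.disjoint hij
    rw [← h1]
    have h2 : ∑ w ∈ Polynomial.nthRootsFinset m (1 : ℂ), w =
        ∑ i ∈ range m, (Complex.exp (2 * Real.pi * Complex.I / m)) ^ i := by
      symm
      refine sum_bij (fun i _ => (Complex.exp (2 * Real.pi * Complex.I / m)) ^ i) ?_ ?_ ?_ ?_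
      · intro i _
        rw [Polynomial.mem_nthRootsFinset hm, ← pow_mul, mul_comm i m, pow_mul, hz.pow_eq_one,
          one_pow]
      · intro i hi j hj hij
        exact hz.pow_inj (mem_range.mp hi) (mem_range.mp hj) hij
      · intro w hw
        rw [Polynomial.mem_nthRootsFinset hm] at hw
        have : NeZero m := ⟨hm.ne'⟩
        obtain ⟨i, hi, rfl⟩ := hz.eq_pow_of_pow_eq_one hw
        exact ⟨i, mem_range.mpr hi, rfl⟩
      · intro i _; rfl
    rw [h2]
    split_ifs with h3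
    · subst h3; simp
    · exact hz.geom_sum_eq_zero (by omega)

theorem sum_prim_units (d : ℕ) [NeZero d] {R : Type} [AddCommMonoid R] {ζ : ℂ}
    (hζ : IsPrimitiveRoot ζ d) (f : ℂ → R) :
    ∑ z ∈ primitiveRoots d ℂ, f z = ∑ u : (ZMod d)ˣ, f (ζ ^ (u : ZMod d).val) := by
  symm
  refine sum_bij (fun u _ => ζ ^ (u : ZMod d).val) ?_ ?_ ?_ ?_
  · intro u _
    rw [mem_primitiveRoots (NeZero.pos d)]
    exact hζ.pow_of_coprime _ (ZMod.val_coe_unit_coprime u)
  · intro u _ v _ h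
    have := hζ.pow_inj (ZMod.val_lt _) (ZMod.val_lt _) h
    exact Units.ext (ZMod.val_injective d this)
  · intro z hz
    rw [mem_primitiveRoots (NeZero.pos d)] at hz
    obtain ⟨i, hi, rfl⟩ := hζ.eq_pow_of_pow_eq_one hz.pow_eq_one
    have hc : i.Coprime d := (hζ.pow_iff_coprime (NeZero.pos d) i).mp hz
    refine ⟨ZMod.unitOfCoprime i hc, mem_univ _, ?_⟩
    rw [ZMod.coe_unitOfCoprime, ZMod.val_natCast, Nat.mod_eq_of_lt hi]
  · intro u _; rfl

theorem sum_pow_bound (d m : ℕ) (hd : 0 < d) :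
    (Nat.totient (d / Nat.gcd d m) : ℝ) * ‖∑ z ∈ primitiveRoots d ℂ, z ^ m‖ ≤ Nat.totient d := by
  have : NeZero d := ⟨hd.ne'⟩
  have hζ := Complex.isPrimitiveRoot_exp d hd.ne'
  set ζ := Complex.exp (2 * Real.pi * Complex.I / d) with hζdef
  set o := d / Nat.gcd d m with ho
  have hod : o ∣ d := Nat.div_dvd_of_dvd (Nat.gcd_dvd_left d m)
  have ho0 : 0 < o := Nat.pos_of_dvd_of_pos hod hd
  have : NeZero o := ⟨ho0.ne'⟩
  set ξ := ζ ^ m with hξ
  have hξo : IsPrimitiveRoot ξ o := by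
    have h1 : orderOf ζ = d := hζ.eq_orderOf.symm
    have h2 : orderOf ξ = o := by
      have h3 : IsOfFinOrder ζ := by
        rw [← orderOf_pos_iff, h1]
        exact hd
      rw [hξ, h3.orderOf_pow, h1]
    rw [← h2]
    exact IsPrimitiveRoot.orderOf ξ
  have e1 : ∑ z ∈ primitiveRoots d ℂ, z ^ m =
      ∑ u : (ZMod d)ˣ, ξ ^ ((ZMod.unitsMap hod u : (ZMod o)ˣ) : ZMod o).val := by
    rw [sum_prim_units d hζ (fun z => z ^ m)]
    apply sum_congr rfl
    intro u _
    rw [← pow_mul, mul_comm, pow_mul, ← hξ]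
    have h1 : ((ZMod.unitsMap hod u : (ZMod o)ˣ) : ZMod o) = (((u : ZMod d).val : ℕ) : ZMod o) := by
      rw [ZMod.unitsMap_val, ZMod.cast_eq_val]
    rw [h1, ZMod.val_natCast]
    rw [hξo.eq_orderOf, pow_mod_orderOf]
  have e2 : ∀ v : (ZMod o)ˣ, ∑ u : (ZMod d)ˣ, ξ ^ ((ZMod.unitsMap hod u * v : (ZMod o)ˣ) : ZMod o).val
      = ∑ u : (ZMod d)ˣ, ξ ^ ((ZMod.unitsMap hod u : (ZMod o)ˣ) : ZMod o).val := by
    intro v
    obtain ⟨w, rfl⟩ := ZMod.unitsMap_surjective hod v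
    rw [← Equiv.sum_comp (Equiv.mulRight w)
      (fun u : (ZMod d)ˣ => ξ ^ ((ZMod.unitsMap hod u : (ZMod o)ˣ) : ZMod o).val)]
    apply sum_congr rfl
    intro u _
    rw [Equiv.coe_mulRight, map_mul]
  have e3 : (Nat.totient o : ℂ) * ∑ z ∈ primitiveRoots d ℂ, z ^ m =
      Nat.totient d * ∑ w ∈ primitiveRoots o ℂ, w := by
    have h1 : ∑ v : (ZMod o)ˣ, ∑ u : (ZMod d)ˣ,
        ξ ^ ((ZMod.unitsMap hod u * v : (ZMod o)ˣ) : ZMod o).val =
        (Nat.totient o : ℂ) * ∑ z ∈ primitiveRoots d ℂ, z ^ m := by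
      rw [sum_congr rfl fun v _ => e2 v, sum_const, card_univ, ZMod.card_units_eq_totient,
        nsmul_eq_mul, e1]
    rw [← h1, sum_comm]
    have h2 : ∀ u : (ZMod d)ˣ, ∑ v : (ZMod o)ˣ,
        ξ ^ ((ZMod.unitsMap hod u * v : (ZMod o)ˣ) : ZMod o).val = ∑ w ∈ primitiveRoots o ℂ, w := by
      intro u
      rw [sum_prim_units o hξo (fun z => z), ← Equiv.sum_comp (Equiv.mulLeft (ZMod.unitsMap hod u))
        (fun v : (ZMod o)ˣ => ξ ^ (v : ZMod o).val)]
      rfl
    rw [sum_congr rfl fun u _ => h2 u, sum_const, card_univ, ZMod.card_units_eq_totient,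
      nsmul_eq_mul]
  have e4 := congrArg norm e3
  rw [norm_mul, norm_mul, Complex.norm_natCast, Complex.norm_natCast,
    sum_prim_moebius o ho0] at e4
  rw [e4]
  have h5 : ‖((ArithmeticFunction.moebius o : ℤ) : ℂ)‖ ≤ 1 := by
    rw [Complex.norm_intCast]
    exact_mod_cast ArithmeticFunction.abs_moebius_le_one
  calc (Nat.totient d : ℝ) * ‖((ArithmeticFunction.moebius o : ℤ) : ℂ)‖ ≤ Nat.totient d * 1 := by
        gcongr
    _ = _ := mul_one _

end Pool.Agent.U332.OI
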