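import Mathlib

/-! # Correlations of square waves -/

namespace Pool.Agent.U332.OI

open Finset

theorem sum_range_mul_blocks {M : Type} [AddCommMonoid M] (a b : ℕ) (f : ℕ → M) :
    ∑ x ∈ range (a * b), f x = ∑ i ∈ range a, ∑ t ∈ range b, f (b * i + t) := by
  induction a with
  | zero => simp
  | succ a ih =>
    rw [add_mul, one_mul, sum_range_add, ih, sum_range_succ, mul_comm b a]

/-- the sum over a full period -/
theorem sum_neg_one_pow_odd (v : ℕ) (hv : Odd v) : ∑ b ∈ range v, (-1 : ℤ) ^ b = 1 := by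
  rw [neg_one_geom_sum]
  rw [if_neg (by rwa [Nat.not_even_iff_odd])]

theorem sum_affine (u v a : ℕ) (hv : Odd v) (huv : u.Coprime v) :
    ∑ j ∈ range v, (-1 : ℤ) ^ ((u * j + a) % v) = 1 := by
  refine Eq.trans ?_ (sum_neg_one_pow_odd v hv)
  have hv0 : 0 < v := hv.pos
  apply sum_bij (fun j _ => (u * j + a) % v)
  · intro j _
    exact mem_range.mpr (Nat.mod_lt _ hv0)
  · intro i hi j hj hij
    have h1 : u * i + a ≡ u * j + a [MOD v] := hij
    have h2 : u * i ≡ u * j [MOD v] := Nat.ModEq.add_right_cancel' a h1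
    have h3 : i ≡ j [MOD v] := Nat.ModEq.cancel_left_of_coprime (by rwa [Nat.gcd_comm]) h2
    exact Nat.ModEq.eq_of_lt_of_lt h3 (mem_range.mp hi) (mem_range.mp hj)
  · intro b hb
    obtain ⟨j, hj, hjb⟩ : ∃ j < v, (u * j + a) % v = b := by
      have hinj : Set.InjOn (fun j => (u * j + a) % v) (range v : Set ℕ) := by
        intro i hi j hj hij
        have h1 : u * i + a ≡ u * j + a [MOD v] := hij
        have h2 : u * i ≡ u * j [MOD v] := Nat.ModEq.add_right_cancel' a h1
        have h3 : i ≡ j [MOD v] := Nat.ModEq.cancel_left_of_coprime (by rwa [Nat.gcd_comm]) h2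
        exact Nat.ModEq.eq_of_lt_of_lt h3 (by simpa using hi) (by simpa using hj)
      have := surj_on_of_inj_on_of_card_le (s := range v) (t := range v)
        (fun j _ => (u * j + a) % v) (fun j _ => mem_range.mpr (Nat.mod_lt _ hv0))
        (fun i j hi hj h => hinj (by simpa using hi) (by simpa using hj) h) le_rfl b hb
      obtain ⟨j, hj, h⟩ := this
      exact ⟨j, mem_range.mp hj, h.symm⟩
    exact ⟨j, mem_range.mpr hj, hjb⟩
  · intro j _; rfl

/-- exact evaluation of the correlation of two square waves -/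
theorem corr_exact (u v : ℕ) (hu : 0 < u) (hv : 0 < v) (huv : u.Coprime v) :
    |∑ i ∈ range (2 * u * v), (-1 : ℤ) ^ (i / v + i / u)| ≤ 2 := by
  have h2 : 2 * u * v = 2 * (u * v) := by ring
  have hsplit : ∑ i ∈ range (2 * u * v), (-1 : ℤ) ^ (i / v + i / u) =
      ∑ i ∈ range (u * v), ((-1 : ℤ) ^ (i / v + i / u) +
        (-1 : ℤ) ^ ((u + i / v) + (v + i / u))) := by
    rw [h2, sum_range_mul_blocks 2 (u * v), sum_range_succ, sum_range_succ, sum_range_zero,
      zero_add, ← sum_add_distrib]
    apply sum_congr rfl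
    intro t _
    have e1 : (u * v * 1 + t) / v = u + t / v := by
      rw [mul_one, mul_comm u v, Nat.mul_add_div hv]
    have e2 : (u * v * 1 + t) / u = v + t / u := by
      rw [mul_one, Nat.mul_add_div hu]
    rw [e1, e2, mul_zero, zero_add]
  rw [hsplit]
  rcases Nat.even_or_odd (u + v) with hE | hO
  · -- both odd
    have hu1 : Odd u := by
      by_contra h
      rw [Nat.not_odd_iff_even] at h
      have hv1 : Even v := (Nat.even_add.mp hE).mp h
      have := Nat.dvd_gcd h.two_dvd hv1.two_dvd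
      rw [huv] at this
      omega
    have hv1 : Odd v := by
      by_contra h
      rw [Nat.not_odd_iff_even] at h
      have := (Nat.even_add.mp hE).mpr h
      exact (Nat.not_even_iff_odd.mpr hu1) this
    have hterm : ∀ i, (-1 : ℤ) ^ (i / v + i / u) = (-1 : ℤ) ^ (i % v) * (-1 : ℤ) ^ (i % u) := by
      intro i
      have f : ∀ w : ℕ, Odd w → (-1 : ℤ) ^ (i / w) = (-1 : ℤ) ^ i * (-1 : ℤ) ^ (i % w) := by
        intro w hw
        have h1 : i = w * (i / w) + i % w := (Nat.div_add_mod i w).symm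
        conv_rhs => rw [h1]
        rw [pow_add, pow_mul, hw.neg_one_pow, Nat.mul_add_mod, Nat.mod_mod, mul_assoc, ← pow_add,
          ← two_mul, pow_mul (-1 : ℤ) 2, neg_one_sq, one_pow, mul_one]
      rw [pow_add, f v hv1, f u hu1]
      have : (-1 : ℤ) ^ i * (-1 : ℤ) ^ i = 1 := by
        rw [← pow_add, ← two_mul, pow_mul, neg_one_sq, one_pow]
      linear_combination ((-1 : ℤ) ^ (i % v) * (-1 : ℤ) ^ (i % u)) * this
    have hS : ∑ i ∈ range (u * v), (-1 : ℤ) ^ (i / v + i / u) = 1 := by
      rw [sum_congr rfl fun i _ => hterm i, mul_comm u v, sum_range_mul_blocks v u, sum_comm]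
      have h3 : ∀ a ∈ range u, ∑ j ∈ range v, (-1 : ℤ) ^ ((u * j + a) % v) *
          (-1 : ℤ) ^ ((u * j + a) % u) = (-1 : ℤ) ^ a := by
        intro a ha
        have h4 : ∀ j, (u * j + a) % u = a := fun j => by
          rw [Nat.mul_add_mod, Nat.mod_eq_of_lt (mem_range.mp ha)]
        rw [sum_congr rfl fun j _ => by rw [h4 j], ← sum_mul, sum_affine u v a hv1 huv, one_mul]
      rw [sum_congr rfl h3, sum_neg_one_pow_odd u hu1]
    have h5 : ∀ i, (-1 : ℤ) ^ ((u + i / v) + (v + i / u)) = (-1 : ℤ) ^ (i / v + i / u) := by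
      intro i
      have : (u + i / v) + (v + i / u) = (u + v) + (i / v + i / u) := by ring
      rw [this, pow_add, hE.neg_one_pow, one_mul]
    rw [sum_add_distrib, sum_congr rfl fun i _ => h5 i, hS]
    norm_num
  · have h5 : ∀ i, (-1 : ℤ) ^ (i / v + i / u) + (-1 : ℤ) ^ ((u + i / v) + (v + i / u)) = 0 := by
      intro i
      have : (u + i / v) + (v + i / u) = (u + v) + (i / v + i / u) := by ring
      rw [this, pow_add (-1 : ℤ) (u + v), hO.neg_one_pow]
      ring
    rw [sum_congr rfl fun i _ => h5 i]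
    simp

/-- the correlation of the square waves of frequencies `u` and `v` modulo `p` -/
theorem corr_bound (p u v : ℕ) (hp : 0 < p) (hu : 0 < u) (hv : 0 < v) (huv : u.Coprime v) :
    (u * v : ℤ) * |∑ c ∈ range p, (-1 : ℤ) ^ (2 * u * c / p + 2 * v * c / p)| ≤
      p + 4 * u * v * (u + v) := by
  set J : ℕ → ℕ := fun c => 2 * u * c / p + 2 * v * c / p with hJ
  set S := ∑ c ∈ range p, (-1 : ℤ) ^ (2 * u * c / p + 2 * v * c / p) with hS
  have huvp : 0 < 2 * u * v := by positivity
  -- the refined sum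
  have h1 : ∑ x ∈ range (2 * u * v * p), (-1 : ℤ) ^ (x / (v * p) + x / (u * p)) =
      p * ∑ i ∈ range (2 * u * v), (-1 : ℤ) ^ (i / v + i / u) := by
    rw [sum_range_mul_blocks (2 * u * v) p, mul_sum]
    apply sum_congr rfl
    intro i _
    have h2 : ∀ t ∈ range p, (-1 : ℤ) ^ ((p * i + t) / (v * p) + (p * i + t) / (u * p)) =
        (-1 : ℤ) ^ (i / v + i / u) := by
      intro t ht
      have h3 : (p * i + t) / p = i := by
        rw [Nat.mul_add_div hp, Nat.div_eq_of_lt (mem_range.mp ht), add_zero]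
      rw [mul_comm v p, mul_comm u p, ← Nat.div_div_eq_div_mul, ← Nat.div_div_eq_div_mul, h3]
    rw [sum_congr rfl h2, sum_const, card_range, nsmul_eq_mul]
  have h2 : ∑ x ∈ range (2 * u * v * p), (-1 : ℤ) ^ (x / (v * p) + x / (u * p)) =
      ∑ c ∈ range p, ∑ t ∈ range (2 * u * v),
        (-1 : ℤ) ^ ((2 * u * v * c + t) / (v * p) + (2 * u * v * c + t) / (u * p)) := by
    rw [mul_comm (2 * u * v) p, sum_range_mul_blocks p (2 * u * v)]
  have hJu : ∀ c, 2 * u * v * c / (v * p) = 2 * u * c / p := fun c => by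
    rw [show 2 * u * v * c = v * (2 * u * c) by ring, Nat.mul_div_mul_left _ _ hv]
  have hJv : ∀ c, 2 * u * v * c / (u * p) = 2 * v * c / p := fun c => by
    rw [show 2 * u * v * c = u * (2 * v * c) by ring, Nat.mul_div_mul_left _ _ hu]
  have hmono : ∀ c, J c ≤ J (c + 1) := by
    intro c
    simp only [hJ]
    gcongr <;> omega
  have h3 : ∀ c ∈ range p, |(∑ t ∈ range (2 * u * v),
        (-1 : ℤ) ^ ((2 * u * v * c + t) / (v * p) + (2 * u * v * c + t) / (u * p))) -
        2 * u * v * (-1 : ℤ) ^ J c| ≤ 4 * u * v * ((J (c + 1) : ℤ) - J c) := by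
    intro c _
    have e0 : (2 * u * v : ℤ) * (-1 : ℤ) ^ J c = ∑ t ∈ range (2 * u * v), (-1 : ℤ) ^ J c := by
      rw [sum_const, card_range, nsmul_eq_mul]
      push_cast
      ring
    rw [e0, ← sum_sub_distrib]
    rcases (hmono c).eq_or_lt with heq | hlt
    · have hA : 2 * u * c / p ≤ 2 * u * (c + 1) / p := by gcongr; omega
      have hB : 2 * v * c / p ≤ 2 * v * (c + 1) / p := by gcongr; omega
      simp only [hJ] at heq
      have hA' : 2 * u * c / p = 2 * u * (c + 1) / p := by omega
      have hB' : 2 * v * c / p = 2 * v * (c + 1) / p := by omega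
      have h4 : ∀ t ∈ range (2 * u * v),
          (-1 : ℤ) ^ ((2 * u * v * c + t) / (v * p) + (2 * u * v * c + t) / (u * p)) -
            (-1 : ℤ) ^ J c = 0 := by
        intro t ht
        have ht' := mem_range.mp ht
        have a1 : (2 * u * v * c + t) / (v * p) = 2 * u * c / p := by
          apply le_antisymm
          · rw [hA', ← hJu]
            apply Nat.div_le_div_right
            nlinarith
          · rw [← hJu]
            apply Nat.div_le_div_right
            omega
        have a2 : (2 * u * v * c + t) / (u * p) = 2 * v * c / p := by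
          apply le_antisymm
          · rw [hB', ← hJv]
            apply Nat.div_le_div_right
            nlinarith
          · rw [← hJv]
            apply Nat.div_le_div_right
            omega
        rw [a1, a2]
        simp [hJ]
      rw [sum_congr rfl h4, sum_const_zero, abs_zero]
      simp only [hJ]
      rw [hA', hB', sub_self, mul_zero]
    · have h5 : |∑ t ∈ range (2 * u * v),
          ((-1 : ℤ) ^ ((2 * u * v * c + t) / (v * p) + (2 * u * v * c + t) / (u * p)) -
            (-1 : ℤ) ^ J c)| ≤ ∑ t ∈ range (2 * u * v), (2 : ℤ) := by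
        refine (abs_sum_le_sum_abs _ _).trans (sum_le_sum fun t _ => ?_)
        rcases neg_one_pow_eq_or ℤ ((2 * u * v * c + t) / (v * p) + (2 * u * v * c + t) / (u * p))
          with h | h <;> rcases neg_one_pow_eq_or ℤ (J c) with h' | h' <;> rw [h, h'] <;> norm_num
      rw [sum_const, card_range, nsmul_eq_mul] at h5
      have h6 : (1 : ℤ) ≤ (J (c + 1) : ℤ) - J c := by omega
      have h7 : (0 : ℤ) ≤ 4 * u * v := by positivity
      calc _ ≤ ((2 * u * v : ℕ) : ℤ) * 2 := h5
        _ = 4 * u * v * 1 := by push_cast; ring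
        _ ≤ _ := by gcongr
  have h4 : |p * ∑ i ∈ range (2 * u * v), (-1 : ℤ) ^ (i / v + i / u) - 2 * u * v * S| ≤
      4 * u * v * (2 * u + 2 * v) := by
    rw [← h1, h2, hS, mul_sum, ← sum_sub_distrib]
    refine (abs_sum_le_sum_abs _ _).trans ((sum_le_sum h3).trans ?_)
    rw [← mul_sum, sum_range_sub (fun c => (J c : ℤ))]
    have e1 : J p = 2 * u + 2 * v := by
      simp only [hJ]
      rw [Nat.mul_div_cancel _ hp, Nat.mul_div_cancel _ hp]
    have e2 : J 0 = 0 := by simp [hJ]
    rw [e1, e2]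
    push_cast
    simp
  have h5 := corr_exact u v hu hv huv
  have h6 : |p * ∑ i ∈ range (2 * u * v), (-1 : ℤ) ^ (i / v + i / u)| ≤ 2 * p := by
    rw [abs_mul, Nat.abs_cast]
    nlinarith [Int.natCast_nonneg p]
  have h7 : 2 * ((u * v : ℤ) * |S|) = |2 * u * v * S| := by
    rw [abs_mul, abs_of_nonneg (by positivity : (0 : ℤ) ≤ 2 * u * v)]
    ring
  have h8 : |2 * u * v * S| ≤ 2 * p + 4 * u * v * (2 * u + 2 * v) := by
    have h9 := abs_sub_abs_le_abs_sub (2 * u * v * S)
      (p * ∑ i ∈ range (2 * u * v), (-1 : ℤ) ^ (i / v + i / u))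
    rw [abs_sub_comm] at h9
    linarith
  linarith

end Pool.Agent.U332.OI
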