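import Mathlib
import Pool.Agent.U332.OI.Corr

/-! # The correlation of the square wave modulo `p` with its dilates -/

namespace Pool.Agent.U332.OI

open Finset

theorem sum_zmod_range {M : Type} [AddCommMonoid M] (p : ℕ) [NeZero p] (F : ZMod p → M) :
    ∑ x, F x = ∑ c ∈ range p, F (c : ZMod p) := by
  symm
  apply sum_bij (fun (c : ℕ) _ => (c : ZMod p))
  · intro c _; exact mem_univ _
  · intro a ha b hb hab
    rw [mem_range] at ha hb
    have := congrArg ZMod.val hab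
    rwa [ZMod.val_natCast, ZMod.val_natCast, Nat.mod_eq_of_lt ha, Nat.mod_eq_of_lt hb] at this
  · intro x _
    exact ⟨x.val, mem_range.mpr (ZMod.val_lt x), by simp⟩
  · intro c _; rfl

theorem sum_units_zmod {M : Type} [AddCommMonoid M] (p : ℕ) [Fact p.Prime] (F : ZMod p → M) :
    ∑ x, F x = F 0 + ∑ u : (ZMod p)ˣ, F (u : ZMod p) := by
  rw [← add_sum_erase univ F (mem_univ 0)]
  congr 1
  symm
  refine sum_bij (fun (t : (ZMod p)ˣ) _ => (t : ZMod p)) ?_ ?_ ?_ ?_
  · intro t _; rw [mem_erase]; exact ⟨t.ne_zero, mem_univ _⟩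
  · intro t _ t' _ h; exact Units.ext h
  · intro k hk
    rw [mem_erase] at hk
    obtain ⟨t, rfl⟩ := isUnit_iff_ne_zero.mpr hk.1
    exact ⟨t, mem_univ _, rfl⟩
  · intro t _; rfl

variable {p : ℕ} [hp : Fact p.Prime]

/-- the square wave: `1` on `[0, (p-1)/2]`, `-1` on the rest -/
def sq (x : ZMod p) : ℤ := if x.val ≤ (p - 1) / 2 then 1 else -1

theorem sq_natCast (hp2 : p % 2 = 1) (n : ℕ) : sq ((n : ℕ) : ZMod p) = (-1) ^ (2 * n / p) := by
  unfold sq
  rw [ZMod.val_natCast]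
  have hp0 : 0 < p := hp.out.pos
  have h1 : 2 * n / p = 2 * (n / p) + 2 * (n % p) / p := by
    have : 2 * n = p * (2 * (n / p)) + 2 * (n % p) := by
      have := Nat.div_add_mod n p
      nlinarith
    conv_lhs => rw [this]
    rw [Nat.mul_add_div hp0]
  have hlt := Nat.mod_lt n hp0
  rw [h1, pow_add, pow_mul, neg_one_sq, one_pow, one_mul]
  split_ifs with h
  · rw [Nat.div_eq_of_lt (by omega), pow_zero]
  · have : 2 * (n % p) / p = 1 := by
      rw [Nat.div_eq_iff hp0]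
      omega
    rw [this, pow_one]

theorem sq_neg (hp2 : p % 2 = 1) (x : ZMod p) (hx : x ≠ 0) : sq (-x) = -sq x := by
  unfold sq
  have h1 : (-x).val = p - x.val := by
    have := ZMod.neg_val x
    rwa [if_neg hx] at this
  have h2 : x.val ≠ 0 := by rwa [Ne, ZMod.val_eq_zero]
  have h3 := ZMod.val_lt x
  rw [h1]
  split_ifs <;> omega

/-- the correlation -/
def CC (h : (ZMod p)ˣ) : ℤ := ∑ b : (ZMod p)ˣ, sq (b : ZMod p) * sq ((h * b : (ZMod p)ˣ) : ZMod p)

theorem CC_neg (hp2 : p % 2 = 1) (h : (ZMod p)ˣ) : CC (-h) = -CC h := by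
  unfold CC
  rw [← sum_neg_distrib]
  apply sum_congr rfl
  intro b _
  rw [neg_mul, Units.val_neg, sq_neg hp2 _ (Units.ne_zero _), mul_neg]

omit hp in
theorem sq_mul_self (x : ZMod p) : sq x * sq x = 1 := by
  unfold sq; split_ifs <;> norm_num

theorem CC_one : CC (1 : (ZMod p)ˣ) = p - 1 := by
  unfold CC
  simp only [one_mul, sq_mul_self, sum_const, card_univ, ZMod.card_units, nsmul_eq_mul, mul_one]
  rw [Nat.cast_sub hp.out.one_lt.le]
  norm_num

theorem CC_bound_pos (hp2 : p % 2 = 1) (h : (ZMod p)ˣ) (a b : ℕ) (ha : 0 < a) (hb : 0 < b)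
    (hbp : b < p) (hab : a.Coprime b) (hh : (h : ZMod p) * b = a) :
    (a * b : ℤ) * |CC h| ≤ p + 4 * a * b * (a + b) + a * b := by
  have hb0 : ((b : ℕ) : ZMod p) ≠ 0 := by
    rw [Ne, ZMod.natCast_eq_zero_iff]
    intro h1
    have := Nat.le_of_dvd hb h1
    omega
  obtain ⟨β, hβ⟩ := isUnit_iff_ne_zero.mpr hb0
  have hNZ : NeZero p := ⟨hp.out.ne_zero⟩
  have h1 : CC h = ∑ c : (ZMod p)ˣ, sq ((b : ZMod p) * (c : ZMod p)) *
      sq ((a : ZMod p) * (c : ZMod p)) := by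
    unfold CC
    rw [← Equiv.sum_comp (Equiv.mulLeft β)]
    apply sum_congr rfl
    intro c _
    rw [Equiv.coe_mulLeft, Units.val_mul, Units.val_mul, Units.val_mul, hβ, ← mul_assoc, hh]
  have h2 := sum_units_zmod p (fun x : ZMod p => sq ((b : ZMod p) * x) * sq ((a : ZMod p) * x))
  have h3 : sq ((b : ZMod p) * 0) * sq ((a : ZMod p) * 0) = 1 := by
    simp [sq]
  rw [h3, ← h1, sum_zmod_range] at h2
  have h4 : ∀ c ∈ range p, sq ((b : ZMod p) * ((c : ℕ) : ZMod p)) *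
      sq ((a : ZMod p) * ((c : ℕ) : ZMod p)) = (-1) ^ (2 * a * c / p + 2 * b * c / p) := by
    intro c _
    rw [← Nat.cast_mul, ← Nat.cast_mul, sq_natCast hp2, sq_natCast hp2, ← pow_add]
    congr 1
    rw [add_comm]
    congr 2 <;> ring
  rw [sum_congr rfl h4] at h2
  have h5 := corr_bound p a b hp.out.pos ha hb hab
  have h6 : CC h = (∑ c ∈ range p, (-1) ^ (2 * a * c / p + 2 * b * c / p)) - 1 := by
    rw [h2]; ring
  have h7 : |CC h| ≤ |∑ c ∈ range p, (-1 : ℤ) ^ (2 * a * c / p + 2 * b * c / p)| + 1 := by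
    rw [h6]
    refine (abs_sub _ _).trans ?_
    simp
  have h8 : (0 : ℤ) ≤ a * b := by positivity
  calc (a * b : ℤ) * |CC h| ≤
      (a * b : ℤ) * (|∑ c ∈ range p, (-1 : ℤ) ^ (2 * a * c / p + 2 * b * c / p)| + 1) := by gcongr
    _ = (a * b : ℤ) * |∑ c ∈ range p, (-1 : ℤ) ^ (2 * a * c / p + 2 * b * c / p)| + a * b := by ring
    _ ≤ _ := by linarith

theorem CC_bound (hp2 : p % 2 = 1) (h : (ZMod p)ˣ) (a b : ℕ) (ha : 0 < a) (hb : 0 < b)
    (hbp : b < p) (hab : a.Coprime b) (hh : (h : ZMod p) * b = a ∨ (h : ZMod p) * b = -a) :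
    (a * b : ℤ) * |CC h| ≤ p + 4 * a * b * (a + b) + a * b := by
  rcases hh with hh | hh
  · exact CC_bound_pos hp2 h a b ha hb hbp hab hh
  · have := CC_bound_pos hp2 (-h) a b ha hb hbp hab (by
      rw [Units.val_neg, neg_mul, hh, neg_neg])
    rwa [CC_neg hp2, abs_neg] at this

theorem exists_frac (h : (ZMod p)ˣ) : ∃ a b : ℕ, 0 < a ∧ 0 < b ∧ a.Coprime b ∧ a ^ 2 < p ∧
    b ^ 2 < p ∧ ((h : ZMod p) * b = a ∨ (h : ZMod p) * b = -a) := by
  -- Thue's lemma
  set r := Nat.sqrt p with hr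
  have hr1 : r * r ≤ p := Nat.sqrt_le p
  have hr2 : p < (r + 1) * (r + 1) := Nat.lt_succ_sqrt p
  have hr3 : r * r < p := by
    refine lt_of_le_of_ne hr1 ?_
    intro h
    have : IsSquare p := ⟨r, h.symm⟩
    exact hp.out.prime.not_isSquare this
  let f : Fin (r + 1) × Fin (r + 1) → ZMod p := fun ij => (ij.1 : ℕ) - (h : ZMod p) * (ij.2 : ℕ)
  have hcard : Fintype.card (ZMod p) < Fintype.card (Fin (r + 1) × Fin (r + 1)) := by
    rw [ZMod.card, Fintype.card_prod, Fintype.card_fin]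
    exact hr2
  obtain ⟨⟨i, j⟩, ⟨i', j'⟩, hne, heq⟩ := Fintype.exists_ne_map_eq_of_card_lt f hcard
  obtain ⟨x, hx⟩ : ∃ x : ℤ, x = ((i : ℕ) : ℤ) - ((i' : ℕ) : ℤ) := ⟨_, rfl⟩
  obtain ⟨y, hy⟩ : ∃ y : ℤ, y = ((j : ℕ) : ℤ) - ((j' : ℕ) : ℤ) := ⟨_, rfl⟩
  have hxy : x ≠ 0 ∨ y ≠ 0 := by
    by_contra hcon
    push Not at hcon
    apply hne
    have h1 : (i : ℕ) = (i' : ℕ) := by omega
    have h2 : (j : ℕ) = (j' : ℕ) := by omega
    exact Prod.ext (Fin.ext h1) (Fin.ext h2)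
  have h1 := i.2
  have h2 := i'.2
  have h3 := j.2
  have h4 := j'.2
  have hxr : x.natAbs ≤ r := by omega
  have hyr : y.natAbs ≤ r := by omega
  have hrel : (x : ZMod p) = h * y := by
    have : ((i : ℕ) : ZMod p) - h * ((j : ℕ) : ZMod p)
        = ((i' : ℕ) : ZMod p) - h * ((j' : ℕ) : ZMod p) := heq
    rw [hx, hy]
    push_cast
    linear_combination this
  have hrp : r < p := by nlinarith [hp.out.two_le]
  have small : ∀ w : ℤ, w.natAbs ≤ r → (w : ZMod p) = 0 → w = 0 := by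
    intro w hw hw0
    rw [ZMod.intCast_zmod_eq_zero_iff_dvd] at hw0
    exact Int.eq_zero_of_abs_lt_dvd hw0 (by rw [← Int.natCast_natAbs w]; omega)
  have hx0 : x ≠ 0 := by
    intro h0
    rw [h0, Int.cast_zero] at hrel
    rcases hxy with h' | h'
    · exact h' h0
    · exact h' (small y hyr ((mul_eq_zero.mp hrel.symm).resolve_left h.ne_zero))
  have hy0 : y ≠ 0 := by
    intro h0
    rw [h0, Int.cast_zero, mul_zero] at hrel
    exact hx0 (small x hxr hrel)
  -- reduce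
  set G := Nat.gcd x.natAbs y.natAbs with hG
  have hG0 : 0 < G := Nat.gcd_pos_of_pos_left _ (Int.natAbs_pos.mpr hx0)
  obtain ⟨a, ha⟩ := Nat.gcd_dvd_left x.natAbs y.natAbs
  obtain ⟨b, hb⟩ := Nat.gcd_dvd_right x.natAbs y.natAbs
  rw [← hG] at ha hb
  have ha0 : 0 < a := by
    rcases Nat.eq_zero_or_pos a with h' | h'
    · rw [h', mul_zero] at ha
      exact absurd (Int.natAbs_eq_zero.mp ha) hx0
    · exact h'
  have hb0 : 0 < b := by
    rcases Nat.eq_zero_or_pos b with h' | h'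
    · rw [h', mul_zero] at hb
      exact absurd (Int.natAbs_eq_zero.mp hb) hy0
    · exact h'
  have har : a ≤ r := (Nat.le_mul_of_pos_left a hG0).trans (ha ▸ hxr)
  have hbr : b ≤ r := (Nat.le_mul_of_pos_left b hG0).trans (hb ▸ hyr)
  have hGr : G ≤ r := (Nat.le_mul_of_pos_right G ha0).trans (ha ▸ hxr)
  have hGne : ((G : ℕ) : ZMod p) ≠ 0 := by
    rw [Ne, ZMod.natCast_eq_zero_iff]
    intro h1
    have := Nat.le_of_dvd hG0 h1
    omega
  refine ⟨a, b, ha0, hb0, ?_, by nlinarith, by nlinarith, ?_⟩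
  · have h5 : Nat.gcd (G * a) (G * b) = G := by rw [← ha, ← hb]
    rw [Nat.gcd_mul_left] at h5
    exact Nat.eq_of_mul_eq_mul_left hG0 (by rw [h5, mul_one])
  · have hxa : x = G * a ∨ x = -(G * a) := by
      rcases Int.natAbs_eq x with h5 | h5
      · left; rw [h5, ha]; push_cast; ring
      · right; rw [h5, ha]; push_cast; ring
    have hyb : y = G * b ∨ y = -(G * b) := by
      rcases Int.natAbs_eq y with h5 | h5
      · left; rw [h5, hb]; push_cast; ring
      · right; rw [h5, hb]; push_cast; ring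
    rcases hxa with h5 | h5 <;> rcases hyb with h6 | h6 <;> rw [h5, h6] at hrel <;> push_cast at hrel
    · left; apply mul_left_cancel₀ hGne; linear_combination -hrel
    · right; apply mul_left_cancel₀ hGne; linear_combination hrel
    · right; apply mul_left_cancel₀ hGne; linear_combination -hrel
    · left; apply mul_left_cancel₀ hGne; linear_combination hrel

end Pool.Agent.U332.OI
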