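import Mathlib
import Pool.Agent.U332.OI.Sq
import Pool.Agent.U332.OI.Ram

/-! # The mean square of half sums over the characters of exact order `d` -/

namespace Pool.Agent.U332.OI

open Finset Polynomial

variable {p : ℕ} [hp : Fact p.Prime]

/-- the units with representative in `[1, (p-1)/2]` -/
def low (p : ℕ) [Fact p.Prime] : Finset (ZMod p)ˣ :=
  univ.filter fun u : (ZMod p)ˣ => (u : ZMod p).val ≤ (p - 1) / 2

/-- discrete logarithm data -/
structure DL (p : ℕ) [Fact p.Prime] where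
  g : (ZMod p)ˣ
  hg : orderOf g = p - 1
  ind : (ZMod p)ˣ → ℕ
  hind : ∀ u, g ^ ind u = u
  hlt : ∀ u, ind u < p - 1

theorem exists_DL (p : ℕ) [hp : Fact p.Prime] : Nonempty (DL p) := by
  obtain ⟨g, hg⟩ := IsCyclic.exists_ofOrder_eq_natCard (α := (ZMod p)ˣ)
  rw [Nat.card_eq_fintype_card, ZMod.card_units] at hg
  have h1 : ∀ u : (ZMod p)ˣ, ∃ n, n < p - 1 ∧ g ^ n = u := by
    intro u
    have hgen : u ∈ Subgroup.zpowers g := by
      have : Subgroup.zpowers g = ⊤ := by
        apply Subgroup.eq_top_of_card_eq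
        rw [Nat.card_zpowers, hg, Nat.card_eq_fintype_card, ZMod.card_units]
      rw [this]; exact Subgroup.mem_top u
    rw [mem_zpowers_iff_mem_range_orderOf, hg, mem_image] at hgen
    obtain ⟨n, hn, h⟩ := hgen
    exact ⟨n, mem_range.mp hn, h⟩
  choose ind h2 h3 using h1
  exact ⟨⟨g, hg, ind, h3, h2⟩⟩

namespace DL

variable (D : DL p)

theorem ind_mul_modEq (u v : (ZMod p)ˣ) : D.ind (u * v) ≡ D.ind u + D.ind v [MOD (p - 1)] := by
  have h : D.g ^ D.ind (u * v) = D.g ^ (D.ind u + D.ind v) := by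
    rw [D.hind, pow_add, D.hind, D.hind]
  rw [pow_eq_pow_iff_modEq, D.hg] at h
  exact h

/-- the polynomial whose value at a root of unity is the half sum of a character -/
noncomputable def f : ℤ[X] := ∑ u ∈ low p, X ^ D.ind u

theorem aeval_f {R : Type} [CommRing R] (z : R) : aeval z D.f =
    ∑ u ∈ low p, z ^ D.ind u := by
  unfold f
  simp

theorem pow_ind_mul {R : Type} [CommRing R] {z : R} (hz : z ^ (p - 1) = 1) (u v : (ZMod p)ˣ) :
    z ^ D.ind (u * v) = z ^ D.ind u * z ^ D.ind v := by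
  rw [← pow_add]
  exact pow_eq_pow_of_modEq (D.ind_mul_modEq u v) hz

theorem ind_one : D.ind 1 = 0 := by
  have h := D.ind_mul_modEq 1 1
  rw [one_mul] at h
  have h1 : 0 ≡ D.ind 1 [MOD (p - 1)] := Nat.ModEq.add_left_cancel' (D.ind 1) (by simpa using h)
  have h2 := D.hlt 1
  exact (Nat.ModEq.eq_of_lt_of_lt h1 (by omega) h2).symm

theorem ind_neg_one (hp2 : p % 2 = 1) : D.ind (-1) = (p - 1) / 2 := by
  have hp1 := hp.out.two_le
  have h := D.ind_mul_modEq (-1) (-1)
  rw [neg_one_mul, neg_neg, D.ind_one] at h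
  have h1 : (p - 1) ∣ D.ind (-1) + D.ind (-1) := (Nat.modEq_zero_iff_dvd).mp h.symm
  have h2 := D.hlt (-1)
  have h3 : D.ind (-1) ≠ 0 := by
    intro h0
    have h4 := D.hind (-1)
    rw [h0, pow_zero] at h4
    have h5 : (1 : ZMod p) = -1 := by
      have := congrArg Units.val h4
      simpa using this
    have : Fact (2 < p) := ⟨by omega⟩
    exact ZMod.neg_one_ne_one h5.symm
  obtain ⟨c, hc⟩ := h1
  have : c = 1 := by
    have hc2 : c < 2 := by
      by_contra hcc
      push Not at hcc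
      nlinarith
    interval_cases c
    · omega
    · rfl
  rw [this] at hc
  omega

theorem pow_ind_neg {R : Type} [CommRing R] {z : R} (hz : z ^ (p - 1) = 1)
    (hz2 : z ^ ((p - 1) / 2) = -1) (hp2 : p % 2 = 1) (u : (ZMod p)ˣ) :
    z ^ D.ind (-u) = -z ^ D.ind u := by
  rw [← neg_one_mul u, D.pow_ind_mul hz, D.ind_neg_one hp2, hz2, neg_one_mul]

theorem two_aeval {R : Type} [CommRing R] {z : R} (hz : z ^ (p - 1) = 1)
    (hz2 : z ^ ((p - 1) / 2) = -1) (hp2 : p % 2 = 1) :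
    2 * aeval z D.f = ∑ u : (ZMod p)ˣ, (sq (u : ZMod p) : R) * z ^ D.ind u := by
  rw [D.aeval_f]
  have h1 : ∑ u : (ZMod p)ˣ, (sq (u : ZMod p) : R) * z ^ D.ind u =
      ∑ u ∈ low p, z ^ D.ind u +
      ∑ u ∈ univ.filter (fun u : (ZMod p)ˣ => ¬ (u : ZMod p).val ≤ (p - 1) / 2), -z ^ D.ind u := by
    rw [← sum_filter_add_sum_filter_not univ (fun u : (ZMod p)ˣ => (u : ZMod p).val ≤ (p - 1) / 2)]
    unfold low
    congr 1
    · apply sum_congr rfl
      intro u hu
      rw [mem_filter] at hu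
      unfold sq
      rw [if_pos hu.2]; simp
    · apply sum_congr rfl
      intro u hu
      rw [mem_filter] at hu
      unfold sq
      rw [if_neg hu.2]; simp
  have h2 : ∑ u ∈ univ.filter (fun u : (ZMod p)ˣ => ¬ (u : ZMod p).val ≤ (p - 1) / 2), -z ^ D.ind u =
      ∑ u ∈ low p, z ^ D.ind u := by
    have key : ∀ u : (ZMod p)ˣ, ((-u : (ZMod p)ˣ) : ZMod p).val = p - (u : ZMod p).val := by
      intro u
      rw [Units.val_neg]
      have := ZMod.neg_val (u : ZMod p)
      rwa [if_neg u.ne_zero] at this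
    have key2 : ∀ u : (ZMod p)ˣ, 0 < (u : ZMod p).val ∧ (u : ZMod p).val < p := by
      intro u
      refine ⟨Nat.pos_of_ne_zero ?_, ZMod.val_lt _⟩
      rw [Ne, ZMod.val_eq_zero]
      exact u.ne_zero
    unfold low
    apply sum_nbij' (fun u => -u) (fun u => -u)
    · intro u hu
      rw [mem_filter] at hu ⊢
      refine ⟨mem_univ _, ?_⟩
      have := key u
      have := key2 u
      omega
    · intro u hu
      rw [mem_filter] at hu ⊢
      refine ⟨mem_univ _, ?_⟩
      have := key u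
      have := key2 u
      omega
    · intro u _; exact neg_neg u
    · intro u _; exact neg_neg u
    · intro u _
      rw [D.pow_ind_neg hz hz2 hp2]
  rw [h1, h2, two_mul]

theorem norm_sq_eq {z : ℂ} (hz : z ^ (p - 1) = 1)
    (hz2 : z ^ ((p - 1) / 2) = -1) (hp2 : p % 2 = 1) :
    (4 * ‖aeval z D.f‖ ^ 2 : ℂ) = ∑ h : (ZMod p)ˣ, (CC h : ℂ) * z ^ D.ind h := by
  have hz0 : ‖z‖ = 1 := by
    apply Complex.norm_eq_one_of_pow_eq_one hz
    have := hp.out.two_le
    omega
  have hconj : ∀ w : (ZMod p)ˣ, (starRingEnd ℂ) (z ^ D.ind w) = z ^ D.ind w⁻¹ := by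
    intro w
    have h1 : z ^ D.ind w * z ^ D.ind w⁻¹ = 1 := by
      rw [← D.pow_ind_mul hz, mul_inv_cancel, D.ind_one, pow_zero]
    have h2 : z ^ D.ind w * (starRingEnd ℂ) (z ^ D.ind w) = 1 := by
      rw [Complex.mul_conj, Complex.normSq_eq_norm_sq, norm_pow, hz0, one_pow, one_pow]
      simp
    have h3 : z ^ D.ind w ≠ 0 := by
      intro h0; rw [h0, zero_mul] at h1; exact zero_ne_one h1
    exact mul_left_cancel₀ h3 (h2.trans h1.symm)
  have h1 := D.two_aeval hz hz2 hp2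
  have h2 : (4 * ‖aeval z D.f‖ ^ 2 : ℂ) = (2 * aeval z D.f) * (starRingEnd ℂ) (2 * aeval z D.f) := by
    rw [Complex.mul_conj, Complex.normSq_eq_norm_sq, norm_mul, mul_pow]
    push_cast
    norm_num
  rw [h2, h1, map_sum]
  simp only [map_mul, hconj, map_intCast]
  rw [sum_mul_sum, sum_comm]
  have h3 : ∀ w : (ZMod p)ˣ, ∑ u : (ZMod p)ˣ, (sq (u : ZMod p) : ℂ) * z ^ D.ind u *
      ((sq (w : ZMod p) : ℂ) * z ^ D.ind w⁻¹) = ∑ h : (ZMod p)ˣ,
        (sq ((h * w : (ZMod p)ˣ) : ZMod p) : ℂ) * (sq (w : ZMod p) : ℂ) * z ^ D.ind h := by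
    intro w
    rw [← Equiv.sum_comp (Equiv.mulRight w)]
    apply sum_congr rfl
    intro h _
    rw [Equiv.coe_mulRight]
    have : z ^ D.ind h = z ^ D.ind (h * w) * z ^ D.ind w⁻¹ := by
      rw [← D.pow_ind_mul hz, mul_inv_cancel_right]
    rw [this]
    ring
  rw [sum_congr rfl fun w _ => h3 w, sum_comm]
  apply sum_congr rfl
  intro h _
  unfold CC
  push_cast
  rw [sum_mul]
  apply sum_congr rfl
  intro w _
  ring

end DL

end Pool.Agent.U332.OI
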