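import Mathlib
import Pool.Agent.U332.OI.Mean

/-! # The error term of the mean square -/

namespace Pool.Agent.U332.OI

open Finset

theorem le_two_totient_sq (n : ℕ) : n ≤ 2 * n.totient ^ 2 := by
  have hodd : ∀ n : ℕ, Odd n → n ≤ n.totient ^ 2 := by
    intro n hn
    induction n using Nat.recOnPosPrimePosCoprime with
    | zero => simp at hn
    | one => simp
    | prime_pow p k hp hk =>
      have hp2 : p ≠ 2 := by
        rintro rfl
        exact (Nat.not_odd_iff_even.2 (Nat.even_pow.2 ⟨even_two, hk.ne'⟩)) hn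
      have hp3 : 3 ≤ p := by
        have := hp.two_le
        omega
      rw [Nat.totient_prime_pow hp hk]
      obtain ⟨j, rfl⟩ : ∃ j, k = j + 1 := ⟨k - 1, by omega⟩
      rw [Nat.add_sub_cancel, mul_pow, ← pow_mul, pow_succ]
      have h1 : p ^ j ≤ p ^ (j * 2) := Nat.pow_le_pow_right (by omega) (by omega)
      have h2 : p ≤ (p - 1) ^ 2 := by
        obtain ⟨q, rfl⟩ : ∃ q, p = q + 3 := ⟨p - 3, by omega⟩
        have : q + 3 - 1 = q + 2 := by omega
        rw [this]
        nlinarith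
      exact Nat.mul_le_mul h1 h2
    | coprime a b ha hb hab iha ihb =>
      rw [Nat.odd_mul] at hn
      rw [Nat.totient_mul hab, mul_pow]
      exact Nat.mul_le_mul (iha hn.1) (ihb hn.2)
  rcases Nat.eq_zero_or_pos n with rfl | hn
  · simp
  obtain ⟨k, m, hm, rfl⟩ := Nat.exists_eq_two_pow_mul_odd hn.ne'
  have hcop : Nat.Coprime (2 ^ k) m := Nat.Coprime.pow_left _ (Nat.coprime_two_left.mpr hm)
  rw [Nat.totient_mul hcop, mul_pow, ← mul_assoc]
  apply Nat.mul_le_mul _ (hodd m hm)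
  rcases Nat.eq_zero_or_pos k with rfl | hk
  · simp
  · rw [Nat.totient_prime_pow Nat.prime_two hk]
    obtain ⟨j, rfl⟩ : ∃ j, k = j + 1 := ⟨k - 1, by omega⟩
    simp only [Nat.add_sub_cancel]
    rw [pow_succ]
    have : 2 ^ j ≤ (2 ^ j) ^ 2 := Nat.le_self_pow (by norm_num) _
    norm_num
    omega

theorem inv_totient_le (n : ℕ) (x : ℝ) (hx : 0 < x) (hn : x ≤ n) :
    1 / (Nat.totient n : ℝ) ≤ Real.sqrt (2 / x) := by
  have hn0 : 0 < n := by
    rcases Nat.eq_zero_or_pos n with rfl | h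
    · rw [Nat.cast_zero] at hn; linarith
    · exact h
  have ht : 0 < Nat.totient n := Nat.totient_pos.mpr hn0
  have ht' : (0 : ℝ) < Nat.totient n := by exact_mod_cast ht
  apply Real.le_sqrt_of_sq_le
  rw [div_pow, one_pow, div_le_div_iff₀ (by positivity) hx, one_mul]
  have h1 : (n : ℝ) ≤ 2 * (Nat.totient n : ℝ) ^ 2 := by exact_mod_cast le_two_totient_sq n
  linarith

theorem sum_inv_le (M : ℕ) : ∑ a ∈ Icc 1 M, 1 / (a : ℝ) ≤ 1 + Real.log M := by
  have h := harmonic_le_one_add_log M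
  refine le_trans (le_of_eq ?_) h
  rw [harmonic_eq_sum_Icc]
  push_cast
  simp

variable {p : ℕ} [hp : Fact p.Prime]

theorem fiber_bound (A B : (ZMod p)ˣ → ℕ) (hA0 : ∀ h, 0 < A h) (hB0 : ∀ h, 0 < B h)
    (hBp : ∀ h, B h < p)
    (hf : ∀ h : (ZMod p)ˣ, (h : ZMod p) * B h = A h ∨ (h : ZMod p) * B h = -A h)
    (S : Finset (ZMod p)ˣ) (M : ℕ) (hM : ∀ h ∈ S, A h ≤ M ∧ B h ≤ M) :
    ∑ h ∈ S, 1 / ((A h : ℝ) * B h) ≤ 2 * (1 + Real.log M) ^ 2 := by
  have h1 : ∑ h ∈ S, 1 / ((A h : ℝ) * B h) =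
      ∑ x ∈ Icc 1 M ×ˢ Icc 1 M, ∑ h ∈ S with (A h, B h) = x, 1 / ((A h : ℝ) * B h) := by
    symm
    apply sum_fiberwise_of_maps_to
    intro h hh
    have := hM h hh
    have := hA0 h
    have := hB0 h
    rw [mem_product, mem_Icc, mem_Icc]
    dsimp only
    omega
  rw [h1]
  have h2 : ∀ x ∈ Icc 1 M ×ˢ Icc 1 M, ∑ h ∈ S with (A h, B h) = x, 1 / ((A h : ℝ) * B h) ≤
      2 * (1 / (x.1 : ℝ) * (1 / (x.2 : ℝ))) := by
    intro x _
    have h3 : ∀ h ∈ S.filter (fun h => (A h, B h) = x), 1 / ((A h : ℝ) * B h) =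
        1 / (x.1 : ℝ) * (1 / (x.2 : ℝ)) := by
      intro h hh
      rw [mem_filter] at hh
      rw [← hh.2]
      rw [one_div_mul_one_div]
    rw [sum_congr rfl h3, sum_const, nsmul_eq_mul]
    have h4 : (S.filter (fun h => (A h, B h) = x)).card ≤ 2 := by
      rcases (S.filter (fun h => (A h, B h) = x)).eq_empty_or_nonempty with h5 | ⟨h0, hh0⟩
      · rw [h5]; simp
      · have h6 : S.filter (fun h => (A h, B h) = x) ⊆ {h0, -h0} := by
          intro h hh
          rw [mem_filter] at hh hh0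
          rw [mem_insert, mem_singleton]
          have e1 : (A h, B h) = (A h0, B h0) := hh.2.trans hh0.2.symm
          have e2 : A h = A h0 := congrArg Prod.fst e1
          have e3 : B h = B h0 := congrArg Prod.snd e1
          have hb0 : ((B h0 : ℕ) : ZMod p) ≠ 0 := by
            rw [Ne, ZMod.natCast_eq_zero_iff]
            intro h1
            have := Nat.le_of_dvd (hB0 h0) h1
            have := hBp h0
            omega
          have c1 := hf h
          have c2 := hf h0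
          rw [e2, e3] at c1
          rcases c1 with c1 | c1 <;> rcases c2 with c2 | c2
          · left; apply Units.ext; exact mul_right_cancel₀ hb0 (c1.trans c2.symm)
          · right; apply Units.ext; rw [Units.val_neg]
            apply mul_right_cancel₀ hb0
            rw [c1, neg_mul, c2, neg_neg]
          · right; apply Units.ext; rw [Units.val_neg]
            apply mul_right_cancel₀ hb0
            rw [c1, neg_mul, c2]
          · left; apply Units.ext; exact mul_right_cancel₀ hb0 (c1.trans c2.symm)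
        exact (card_le_card h6).trans card_le_two
    have h7 : ((S.filter (fun h => (A h, B h) = x)).card : ℝ) ≤ 2 := by exact_mod_cast h4
    gcongr
  refine (sum_le_sum h2).trans ?_
  have e8 : ∑ x ∈ Icc 1 M ×ˢ Icc 1 M, (1 / (x.1 : ℝ) * (1 / (x.2 : ℝ))) =
      (∑ a ∈ Icc 1 M, 1 / (a : ℝ)) ^ 2 := by
    rw [sum_product, pow_two, sum_mul_sum]
  rw [← mul_sum, e8]
  have h8 := sum_inv_le M
  have h9 : 0 ≤ ∑ a ∈ Icc 1 M, 1 / (a : ℝ) := sum_nonneg fun a _ => by positivity
  gcongr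

namespace DL

variable (D : DL p)

/-- the order of the value at `h` of a character of order `d` -/
def oo (d : ℕ) (h : (ZMod p)ˣ) : ℕ := d / Nat.gcd d (D.ind h)

theorem sum_oo (d e : ℕ) (hd : 0 < d) (hde : e * d = p - 1) (W : ℕ → ℝ) :
    ∑ h : (ZMod p)ˣ, W (D.oo d h) = e * ∑ o ∈ d.divisors, (Nat.totient o : ℝ) * W o := by
  have h1 : ∑ h : (ZMod p)ˣ, W (D.oo d h) = ∑ i ∈ range (e * d), W (d / Nat.gcd d i) := by
    rw [hde]
    apply sum_bij (fun h _ => D.ind h)
    · intro h _; exact mem_range.mpr (D.hlt h)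
    · intro a _ b _ hab
      rw [← D.hind a, hab, D.hind b]
    · intro i hi
      rw [mem_range] at hi
      refine ⟨D.g ^ i, mem_univ _, ?_⟩
      have h2 := D.hind (D.g ^ i)
      rw [pow_eq_pow_iff_modEq, D.hg] at h2
      exact Nat.ModEq.eq_of_lt_of_lt h2 (D.hlt _) hi
    · intro h _; rfl
  rw [h1, sum_range_mul_blocks]
  have h2 : ∀ i ∈ range e, ∑ t ∈ range d, W (d / Nat.gcd d (d * i + t)) =
      ∑ o ∈ d.divisors, (Nat.totient o : ℝ) * W o := by
    intro i _
    have h3 : ∀ t ∈ range d, W (d / Nat.gcd d (d * i + t)) = W (d / Nat.gcd d t) := by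
      intro t _
      rw [Nat.gcd_mul_left_add_right]
    rw [sum_congr rfl h3]
    rw [← sum_fiberwise_of_maps_to (t := d.divisors) (g := fun t => Nat.gcd d t)]
    · rw [← Nat.sum_div_divisors d (fun o => (Nat.totient o : ℝ) * W o)]
      apply sum_congr rfl
      intro c hc
      have hc1 := Nat.dvd_of_mem_divisors hc
      rw [Nat.totient_div_of_dvd hc1]
      have h4 : ∀ t ∈ (range d).filter (fun t => Nat.gcd d t = c), W (d / Nat.gcd d t) =
          W (d / c) := by
        intro t ht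
        rw [mem_filter] at ht
        rw [ht.2]
      rw [sum_congr rfl h4, sum_const, nsmul_eq_mul]
    · intro t _
      rw [Nat.mem_divisors]
      exact ⟨Nat.gcd_dvd_left _ _, hd.ne'⟩
  rw [sum_congr rfl h2, sum_const, card_range, nsmul_eq_mul]

theorem oo_pos (d : ℕ) (hd : 0 < d) (h : (ZMod p)ˣ) : 0 < D.oo d h := by
  unfold oo
  exact Nat.div_pos (Nat.le_of_dvd hd (Nat.gcd_dvd_left _ _)) (Nat.gcd_pos_of_pos_left _ hd)

theorem pow_oo (d e : ℕ) (hde : e * d = p - 1) (h : (ZMod p)ˣ) : h ^ (e * D.oo d h) = 1 := by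
  have h0 : h ^ (e * D.oo d h) = D.g ^ (D.ind h * (e * D.oo d h)) := by
    rw [pow_mul D.g, D.hind]
  rw [h0, ← orderOf_dvd_iff_pow_eq_one, D.hg, ← hde]
  have h1 : d ∣ D.ind h * D.oo d h := by
    unfold oo
    obtain ⟨x, hx⟩ := Nat.gcd_dvd_right d (D.ind h)
    have h2 := Nat.div_mul_cancel (Nat.gcd_dvd_left d (D.ind h))
    refine ⟨x, ?_⟩
    calc D.ind h * (d / Nat.gcd d (D.ind h)) = (Nat.gcd d (D.ind h) * x) *
          (d / Nat.gcd d (D.ind h)) := by rw [← hx]
      _ = (d / Nat.gcd d (D.ind h) * Nat.gcd d (D.ind h)) * x := by ring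
      _ = d * x := by rw [h2]
  calc e * d ∣ e * (D.ind h * D.oo d h) := Nat.mul_dvd_mul_left e h1
    _ = D.ind h * (e * D.oo d h) := by ring

theorem order_large (hp2 : p % 2 = 1) (h : (ZMod p)ˣ) (m : ℕ) (hm : 0 < m) (hpow : h ^ m = 1)
    (hne : h ≠ 1) (hne' : h ≠ -1) (a b V : ℕ) (ha : 0 < a) (hb : 0 < b) (hab : a.Coprime b)
    (haV : a ≤ V) (hbV : b ≤ V) (hh : (h : ZMod p) * b = a ∨ (h : ZMod p) * b = -a) :
    p ≤ 2 * V ^ m := by
  have h1 : ((b : ZMod p)) ^ m = (a : ZMod p) ^ m ∨ ((b : ZMod p)) ^ m = -(a : ZMod p) ^ m := by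
    have h2 : ((h : ZMod p) * b) ^ m = (b : ZMod p) ^ m := by
      rw [mul_pow, ← Units.val_pow_eq_pow_val, hpow, Units.val_one, one_mul]
    rw [← h2]
    rcases hh with hh | hh
    · left; rw [hh]
    · rw [hh]
      rcases Nat.even_or_odd m with h3 | h3
      · left; exact h3.neg_pow _
      · right; exact h3.neg_pow _
  have hVa : a ^ m ≤ V ^ m := Nat.pow_le_pow_left haV m
  have hVb : b ^ m ≤ V ^ m := Nat.pow_le_pow_left hbV m
  have hVa0 : 0 < a ^ m := by positivity
  rcases h1 with h1 | h1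
  · have h2 : (((b ^ m : ℕ) : ℤ) - (a ^ m : ℕ) : ℤ) ≠ 0 := by
      intro h3
      have h4 : b ^ m = a ^ m := by omega
      have h5 : b = a := Nat.pow_left_injective hm.ne' h4
      rw [h5, Nat.coprime_self] at hab
      rw [hab] at h5
      rw [hab, h5] at hh
      simp only [Nat.cast_one, mul_one] at hh
      rcases hh with hh | hh
      · exact hne (Units.ext hh)
      · exact hne' (Units.ext (by rw [hh, Units.val_neg, Units.val_one]))
    have h3 : (p : ℤ) ∣ ((b ^ m : ℕ) : ℤ) - (a ^ m : ℕ) := by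
      rw [← ZMod.intCast_zmod_eq_zero_iff_dvd]
      push_cast
      rw [h1, sub_self]
    have h4 := Int.le_of_dvd (abs_pos.mpr h2) ((dvd_abs _ _).mpr h3)
    have h5 : |((b ^ m : ℕ) : ℤ) - (a ^ m : ℕ)| ≤ V ^ m := by
      rw [abs_le]
      constructor <;> push_cast <;> [skip; skip]
      · have : (0 : ℤ) ≤ (b : ℤ) ^ m := by positivity
        have : (a : ℤ) ^ m ≤ (V : ℤ) ^ m := by exact_mod_cast hVa
        linarith
      · have : (0 : ℤ) ≤ (a : ℤ) ^ m := by positivity
        have : (b : ℤ) ^ m ≤ (V : ℤ) ^ m := by exact_mod_cast hVb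
        linarith
    have h6 : (p : ℤ) ≤ 2 * V ^ m := by
      have : (0 : ℤ) ≤ (V : ℤ) ^ m := by positivity
      linarith
    exact_mod_cast h6
  · have h3 : p ∣ b ^ m + a ^ m := by
      rw [← ZMod.natCast_eq_zero_iff]
      push_cast
      rw [h1, neg_add_cancel]
    have h4 := Nat.le_of_dvd (by omega) h3
    omega

end DL

end Pool.Agent.U332.OI
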