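import Mathlib
import Pool.Agent.U332.OI.Err

/-! # The error term of the mean square: the final bound -/

namespace Pool.Agent.U332.OI

open Finset

variable {p : ℕ} [hp : Fact p.Prime]

namespace DL

variable (D : DL p)

theorem sum_inv_le_of (d e : ℕ) (hd : 0 < d) (hde : e * d = p - 1) (Q : ℝ) (hQ : 0 ≤ Q) :
    ∑ h : (ZMod p)ˣ with (D.oo d h : ℝ) ≤ Q, 1 / (Nat.totient (D.oo d h) : ℝ) ≤ e * Q := by
  rw [sum_filter]
  rw [D.sum_oo d e hd hde (fun o => if (o : ℝ) ≤ Q then 1 / (Nat.totient o : ℝ) else 0)]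
  gcongr
  have h1 : ∀ o ∈ d.divisors, (Nat.totient o : ℝ) *
      (if (o : ℝ) ≤ Q then 1 / (Nat.totient o : ℝ) else 0) = if (o : ℝ) ≤ Q then 1 else 0 := by
    intro o ho
    have h2 : 0 < Nat.totient o := Nat.totient_pos.mpr (Nat.pos_of_mem_divisors ho)
    have h3 : (Nat.totient o : ℝ) ≠ 0 := by positivity
    split_ifs
    · field_simp
    · simp
  rw [sum_congr rfl h1, sum_boole]
  have h4 : (d.divisors.filter (fun o : ℕ => (o : ℝ) ≤ Q)).card ≤ ⌊Q⌋₊ := by
    calc _ ≤ (Icc 1 ⌊Q⌋₊).card := by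
          apply card_le_card
          intro o ho
          rw [mem_filter] at ho
          rw [mem_Icc]
          exact ⟨Nat.pos_of_mem_divisors ho.1, Nat.le_floor ho.2⟩
      _ = _ := by simp
  calc ((d.divisors.filter (fun o : ℕ => (o : ℝ) ≤ Q)).card : ℝ) ≤ (⌊Q⌋₊ : ℝ) := by
        exact_mod_cast h4
    _ ≤ Q := Nat.floor_le hQ

theorem sum_inv_all (d e : ℕ) (hd : 0 < d) (hde : e * d = p - 1) :
    ∑ h : (ZMod p)ˣ, 1 / (Nat.totient (D.oo d h) : ℝ) = e * (d.divisors.card : ℝ) := by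
  rw [D.sum_oo d e hd hde (fun o => 1 / (Nat.totient o : ℝ))]
  congr 1
  rw [sum_congr rfl (g := fun _ => (1 : ℝ))]
  · simp
  · intro o ho
    have h2 : 0 < Nat.totient o := Nat.totient_pos.mpr (Nat.pos_of_mem_divisors ho)
    have h3 : (Nat.totient o : ℝ) ≠ 0 := by positivity
    field_simp

theorem err_bound (hp2 : p % 2 = 1) (d e : ℕ) (hd : 0 < d) (he : 0 < e) (hde : e * d = p - 1)
    (Q V : ℝ) (hQ : 1 ≤ Q) (hV : 2 ≤ V) :
    ∑ h : (ZMod p)ˣ with h ≠ 1 ∧ h ≠ -1, (|CC h| : ℝ) / (Nat.totient (D.oo d h) : ℝ) ≤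
      (8 * Real.sqrt p + 1) * (e * (d.divisors.card : ℝ)) +
      p * (2 * (1 + Real.log p) ^ 2 * Real.sqrt (2 / Q) + e * Q / V +
        2 * (1 + Real.log V) ^ 2 * Real.sqrt (2 * e * Real.log V / Real.log (p / 2))) := by
  have hp3 : 3 ≤ p := by
    have := hp.out.two_le
    omega
  have hp3' : (3 : ℝ) ≤ p := by exact_mod_cast hp3
  choose A B hA0 hB0 hcop hA2 hB2 hf using (fun h : (ZMod p)ˣ => exists_frac h)
  have hBp : ∀ h, B h < p := by
    intro h
    have := hB2 h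
    have := hB0 h
    nlinarith
  have hAp : ∀ h, A h < p := by
    intro h
    have := hA2 h
    have := hA0 h
    nlinarith
  have hsq : ∀ n : ℕ, n ^ 2 < p → (n : ℝ) ≤ Real.sqrt p := by
    intro n hn
    apply Real.le_sqrt_of_sq_le
    exact_mod_cast hn.le
  set φ : (ZMod p)ˣ → ℝ := fun h => 1 / (Nat.totient (D.oo d h) : ℝ) with hφ
  have hφ0 : ∀ h, 0 ≤ φ h := fun h => by simp only [hφ]; positivity
  have hφ1 : ∀ h, φ h ≤ 1 := by
    intro h
    simp only [hφ]
    have h1 : 0 < Nat.totient (D.oo d h) := Nat.totient_pos.mpr (D.oo_pos d hd h)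
    rw [div_le_one (by exact_mod_cast h1)]
    exact_mod_cast h1
  have hpt : ∀ h, (|CC h| : ℝ) ≤ p * (1 / ((A h : ℝ) * B h)) + (8 * Real.sqrt p + 1) := by
    intro h
    have h1 := CC_bound hp2 h (A h) (B h) (hA0 h) (hB0 h) (hBp h) (hcop h) (hf h)
    have h2 : ((A h : ℝ) * B h) * |(CC h : ℝ)| ≤ p + 4 * A h * B h * (A h + B h) + A h * B h := by
      exact_mod_cast h1
    have ha : (0 : ℝ) < A h := by exact_mod_cast hA0 h
    have hb : (0 : ℝ) < B h := by exact_mod_cast hB0 h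
    have h3 := hsq _ (hA2 h)
    have h4 := hsq _ (hB2 h)
    have hab : 0 < (A h : ℝ) * B h := by positivity
    have h5 : |(CC h : ℝ)| ≤ (p + 4 * A h * B h * (A h + B h) + A h * B h) / ((A h : ℝ) * B h) := by
      rw [le_div_iff₀ hab]
      linarith
    refine h5.trans ?_
    have h6 : (p + 4 * A h * B h * (A h + B h) + A h * B h : ℝ) / ((A h : ℝ) * B h) =
        p * (1 / ((A h : ℝ) * B h)) + 4 * (A h + B h) + 1 := by
      field_simp
    rw [h6]
    linarith
  set S := univ.filter (fun h : (ZMod p)ˣ => h ≠ 1 ∧ h ≠ -1) with hS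
  have h1 : ∑ h ∈ S, (|CC h| : ℝ) / (Nat.totient (D.oo d h) : ℝ) ≤
      p * ∑ h ∈ S, (1 / ((A h : ℝ) * B h)) * φ h + (8 * Real.sqrt p + 1) * ∑ h ∈ S, φ h := by
    rw [mul_sum, mul_sum, ← sum_add_distrib]
    apply sum_le_sum
    intro h _
    have h2 := mul_le_mul_of_nonneg_right (hpt h) (hφ0 h)
    calc (|CC h| : ℝ) / (Nat.totient (D.oo d h) : ℝ) = (|CC h| : ℝ) * φ h := by
          simp only [hφ]; ring
      _ ≤ _ := h2
      _ = _ := by ring
  have h2 : ∑ h ∈ S, φ h ≤ e * (d.divisors.card : ℝ) := by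
    rw [← D.sum_inv_all d e hd hde]
    exact sum_le_sum_of_subset_of_nonneg (subset_univ _) fun h _ _ => hφ0 h
  -- the three parts
  have hlog2 : 0 < Real.log (p / 2) := Real.log_pos (by linarith)
  have hlogV : 0 < Real.log V := Real.log_pos (by linarith)
  set S1 := S.filter (fun h => ¬ (D.oo d h : ℝ) ≤ Q) with hS1
  set S2 := (S.filter (fun h => (D.oo d h : ℝ) ≤ Q)).filter (fun h => ¬ ((A h : ℝ) * B h ≤ V))
    with hS2
  set S3 := (S.filter (fun h => (D.oo d h : ℝ) ≤ Q)).filter (fun h => ((A h : ℝ) * B h ≤ V))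
    with hS3
  have hsplit : ∑ h ∈ S, (1 / ((A h : ℝ) * B h)) * φ h = ∑ h ∈ S1, (1 / ((A h : ℝ) * B h)) * φ h +
      ∑ h ∈ S2, (1 / ((A h : ℝ) * B h)) * φ h + ∑ h ∈ S3, (1 / ((A h : ℝ) * B h)) * φ h := by
    rw [← sum_filter_add_sum_filter_not S (fun h => (D.oo d h : ℝ) ≤ Q),
      ← sum_filter_add_sum_filter_not (S.filter (fun h => (D.oo d h : ℝ) ≤ Q))
        (fun h => ((A h : ℝ) * B h ≤ V))]
    ring
  have hP1 : ∑ h ∈ S1, (1 / ((A h : ℝ) * B h)) * φ h ≤
      2 * (1 + Real.log p) ^ 2 * Real.sqrt (2 / Q) := by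
    have h3 : ∀ h ∈ S1, (1 / ((A h : ℝ) * B h)) * φ h ≤
        (1 / ((A h : ℝ) * B h)) * Real.sqrt (2 / Q) := by
      intro h hh
      rw [hS1, mem_filter] at hh
      have := inv_totient_le (D.oo d h) Q (by linarith) (not_le.mp hh.2).le
      simp only [hφ]
      gcongr
    refine (sum_le_sum h3).trans ?_
    rw [← sum_mul]
    have h4 := fiber_bound A B hA0 hB0 hBp hf S1 p (fun h _ => ⟨(hAp h).le, (hBp h).le⟩)
    gcongr
  have hP2 : ∑ h ∈ S2, (1 / ((A h : ℝ) * B h)) * φ h ≤ e * Q / V := by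
    have h3 : ∀ h ∈ S2, (1 / ((A h : ℝ) * B h)) * φ h ≤ (1 / V) * φ h := by
      intro h hh
      rw [hS2, mem_filter] at hh
      have h5 := (not_le.mp hh.2).le
      have h6 := hφ0 h
      gcongr
    refine (sum_le_sum h3).trans ?_
    rw [← mul_sum]
    have h4 : ∑ h ∈ S2, φ h ≤ e * Q := by
      refine le_trans ?_ (D.sum_inv_le_of d e hd hde Q (by linarith))
      apply sum_le_sum_of_subset_of_nonneg
      · intro h hh
        rw [hS2, mem_filter, mem_filter] at hh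
        rw [mem_filter]
        exact ⟨mem_univ _, hh.1.2⟩
      · intro h _ _; exact hφ0 h
    calc (1 / V) * ∑ h ∈ S2, φ h ≤ (1 / V) * (e * Q) := by gcongr
      _ = _ := by ring
  have hP3 : ∑ h ∈ S3, (1 / ((A h : ℝ) * B h)) * φ h ≤
      2 * (1 + Real.log V) ^ 2 * Real.sqrt (2 * e * Real.log V / Real.log (p / 2)) := by
    have hAV : ∀ h ∈ S3, A h ≤ ⌊V⌋₊ ∧ B h ≤ ⌊V⌋₊ := by
      intro h hh
      rw [hS3, mem_filter] at hh
      have ha : (1 : ℝ) ≤ A h := by exact_mod_cast hA0 h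
      have hb : (1 : ℝ) ≤ B h := by exact_mod_cast hB0 h
      constructor
      · apply Nat.le_floor; nlinarith [hh.2]
      · apply Nat.le_floor; nlinarith [hh.2]
    have h3 : ∀ h ∈ S3, (1 / ((A h : ℝ) * B h)) * φ h ≤
        (1 / ((A h : ℝ) * B h)) * Real.sqrt (2 * e * Real.log V / Real.log (p / 2)) := by
      intro h hh
      obtain ⟨hA', hB'⟩ := hAV h hh
      rw [hS3, mem_filter, mem_filter, hS, mem_filter] at hh
      obtain ⟨⟨⟨_, hne, hne'⟩, _⟩, _⟩ := hh
      have ho := D.oo_pos d hd h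
      have hm : 0 < e * D.oo d h := Nat.mul_pos he ho
      have h5 := order_large hp2 h (e * D.oo d h) hm (D.pow_oo d e hde h) hne hne' (A h) (B h)
        ⌊V⌋₊ (hA0 h) (hB0 h) (hcop h) hA' hB' (hf h)
      have hV0 : (0 : ℝ) < ⌊V⌋₊ := by
        have : 2 ≤ ⌊V⌋₊ := Nat.le_floor (by exact_mod_cast hV)
        have : 0 < ⌊V⌋₊ := by omega
        exact_mod_cast this
      have h6 : (p / 2 : ℝ) ≤ V ^ (e * D.oo d h) := by
        have h7 : (p : ℝ) ≤ 2 * (⌊V⌋₊ : ℝ) ^ (e * D.oo d h) := by exact_mod_cast h5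
        have h8 : (⌊V⌋₊ : ℝ) ^ (e * D.oo d h) ≤ V ^ (e * D.oo d h) := by
          apply pow_le_pow_left₀ hV0.le
          exact Nat.floor_le (by linarith)
        linarith
      have h7 : Real.log (p / 2) ≤ (e * D.oo d h : ℕ) * Real.log V := by
        have := Real.log_le_log (by linarith) h6
        rwa [Real.log_pow] at this
      have he' : (0 : ℝ) < e := by exact_mod_cast he
      have h8 : Real.log (p / 2) / (e * Real.log V) ≤ D.oo d h := by
        rw [div_le_iff₀ (by positivity)]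
        push_cast at h7
        linarith
      have h9 := inv_totient_le (D.oo d h) _ (by positivity) h8
      have h10 : (2 : ℝ) / (Real.log (p / 2) / (e * Real.log V)) =
          2 * e * Real.log V / Real.log (p / 2) := by
        field_simp
      rw [h10] at h9
      simp only [hφ]
      gcongr
    refine (sum_le_sum h3).trans ?_
    rw [← sum_mul]
    have h4 := fiber_bound A B hA0 hB0 hBp hf S3 ⌊V⌋₊ hAV
    have h5 : Real.log (⌊V⌋₊ : ℝ) ≤ Real.log V := by
      apply Real.log_le_log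
      · have : 2 ≤ ⌊V⌋₊ := Nat.le_floor (by exact_mod_cast hV)
        have : 0 < ⌊V⌋₊ := by omega
        exact_mod_cast this
      · exact Nat.floor_le (by linarith)
    have h6 : 0 ≤ Real.log (⌊V⌋₊ : ℝ) := Real.log_natCast_nonneg _
    have h7 : 2 * (1 + Real.log (⌊V⌋₊ : ℝ)) ^ 2 ≤ 2 * (1 + Real.log V) ^ 2 := by gcongr
    exact mul_le_mul_of_nonneg_right (h4.trans h7) (Real.sqrt_nonneg _)
  calc _ ≤ p * ∑ h ∈ S, (1 / ((A h : ℝ) * B h)) * φ h + (8 * Real.sqrt p + 1) * ∑ h ∈ S, φ h := h1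
    _ ≤ p * (2 * (1 + Real.log p) ^ 2 * Real.sqrt (2 / Q) + e * Q / V +
        2 * (1 + Real.log V) ^ 2 * Real.sqrt (2 * e * Real.log V / Real.log (p / 2))) +
        (8 * Real.sqrt p + 1) * (e * (d.divisors.card : ℝ)) := by
        rw [hsplit]
        gcongr
    _ = _ := by ring

end DL

end Pool.Agent.U332.OI
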