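import Mathlib
import Pool.Agent.U332.OI.Err2

/-! # The error term of the mean square for almost all primes -/

namespace Pool.Agent.U332.OI

open Finset

/-- the pairs `a ≠ b` up to `N` such that `a / b` has order at most `T` modulo `p` -/
def bad (p N T : ℕ) : Finset (ℕ × ℕ) :=
  (Icc 1 N ×ˢ Icc 1 N).filter fun x => x.1 ≠ x.2 ∧
    ∃ t ∈ Icc 1 T, (p : ℤ) ∣ (x.1 : ℤ) ^ t - (x.2 : ℤ) ^ t

/-- the weight of the bad pairs -/
noncomputable def WW (p N T : ℕ) : ℝ := ∑ x ∈ bad p N T, 1 / (x.1 : ℝ) * (1 / (x.2 : ℝ))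

theorem WW_nonneg (p N T : ℕ) : 0 ≤ WW p N T := sum_nonneg fun x _ => by positivity

theorem card_prime_dvd (S : Finset ℕ) (hS : ∀ p ∈ S, p.Prime) (M : ℤ) (hM : M ≠ 0) (N t : ℕ)
    (hN : 1 ≤ N) (hMN : |M| ≤ (N : ℤ) ^ t) :
    ((S.filter fun p : ℕ => (p : ℤ) ∣ M).card : ℝ) * Real.log 2 ≤ t * Real.log N := by
  have h1 : (S.filter fun p : ℕ => (p : ℤ) ∣ M) ⊆ M.natAbs.primeFactors := by
    intro p hp
    rw [mem_filter] at hp
    rw [Nat.mem_primeFactors]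
    refine ⟨hS p hp.1, ?_, by omega⟩
    exact Int.natCast_dvd.mp hp.2
  have h2 : 2 ^ (M.natAbs.primeFactors.card) ≤ M.natAbs := by
    calc 2 ^ (M.natAbs.primeFactors.card) = ∏ _p ∈ M.natAbs.primeFactors, 2 := by
          rw [prod_const]
      _ ≤ ∏ p ∈ M.natAbs.primeFactors, p :=
          prod_le_prod' fun p hp => (Nat.prime_of_mem_primeFactors hp).two_le
      _ ≤ M.natAbs := Nat.le_of_dvd (by omega) (Nat.prod_primeFactors_dvd _)
  have h3 : (M.natAbs : ℤ) ≤ (N : ℤ) ^ t := by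
    rw [Int.natCast_natAbs]; exact hMN
  have h4 : M.natAbs ≤ N ^ t := by exact_mod_cast h3
  have h5 : 2 ^ ((S.filter fun p : ℕ => (p : ℤ) ∣ M).card) ≤ N ^ t :=
    (Nat.pow_le_pow_right (by norm_num) (card_le_card h1)).trans (h2.trans h4)
  have h6 : ((2 : ℝ) ^ ((S.filter fun p : ℕ => (p : ℤ) ∣ M).card)) ≤ (N : ℝ) ^ t := by
    exact_mod_cast h5
  have h7 := Real.log_le_log (by positivity) h6
  rwa [Real.log_pow, Real.log_pow] at h7

theorem sum_WW (S : Finset ℕ) (hS : ∀ p ∈ S, p.Prime) (N T : ℕ) (hN : 1 ≤ N) :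
    (∑ p ∈ S, WW p N T) * Real.log 2 ≤
      (1 + Real.log N) ^ 2 * ((T : ℝ) ^ 2 * Real.log N) := by
  have hlogN : 0 ≤ Real.log (N : ℝ) := Real.log_natCast_nonneg _
  have h1 : ∑ p ∈ S, WW p N T = ∑ x ∈ (Icc 1 N ×ˢ Icc 1 N).filter (fun x => x.1 ≠ x.2),
      ((S.filter fun p : ℕ => ∃ t ∈ Icc 1 T, (p : ℤ) ∣ (x.1 : ℤ) ^ t - (x.2 : ℤ) ^ t).card : ℝ) *
        (1 / (x.1 : ℝ) * (1 / (x.2 : ℝ))) := by
    unfold WW bad
    have : ∀ p ∈ S, ∑ x ∈ (Icc 1 N ×ˢ Icc 1 N).filter (fun x => x.1 ≠ x.2 ∧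
        ∃ t ∈ Icc 1 T, (p : ℤ) ∣ (x.1 : ℤ) ^ t - (x.2 : ℤ) ^ t), 1 / (x.1 : ℝ) * (1 / (x.2 : ℝ)) =
        ∑ x ∈ (Icc 1 N ×ˢ Icc 1 N).filter (fun x => x.1 ≠ x.2),
          if ∃ t ∈ Icc 1 T, (p : ℤ) ∣ (x.1 : ℤ) ^ t - (x.2 : ℤ) ^ t then
            1 / (x.1 : ℝ) * (1 / (x.2 : ℝ)) else 0 := by
      intro p _
      rw [← filter_filter, sum_filter (p := fun x : ℕ × ℕ =>
        ∃ t ∈ Icc 1 T, (p : ℤ) ∣ (x.1 : ℤ) ^ t - (x.2 : ℤ) ^ t)]
    rw [sum_congr rfl this, sum_comm]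
    apply sum_congr rfl
    intro x _
    rw [← sum_filter, sum_const, nsmul_eq_mul]
  have h2 : ∀ x ∈ (Icc 1 N ×ˢ Icc 1 N).filter (fun x : ℕ × ℕ => x.1 ≠ x.2),
      ((S.filter fun p : ℕ => ∃ t ∈ Icc 1 T, (p : ℤ) ∣ (x.1 : ℤ) ^ t - (x.2 : ℤ) ^ t).card : ℝ) *
        (1 / (x.1 : ℝ) * (1 / (x.2 : ℝ))) * Real.log 2 ≤
      ((T : ℝ) ^ 2 * Real.log N) * (1 / (x.1 : ℝ) * (1 / (x.2 : ℝ))) := by
    intro x hx
    rw [mem_filter, mem_product, mem_Icc, mem_Icc] at hx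
    obtain ⟨⟨⟨hx1, hx2⟩, hx3, hx4⟩, hne⟩ := hx
    have h3 : (S.filter fun p : ℕ => ∃ t ∈ Icc 1 T, (p : ℤ) ∣ (x.1 : ℤ) ^ t - (x.2 : ℤ) ^ t) ⊆
        (Icc 1 T).biUnion fun t => S.filter fun p : ℕ => (p : ℤ) ∣ (x.1 : ℤ) ^ t - (x.2 : ℤ) ^ t := by
      intro p hp
      rw [mem_filter] at hp
      obtain ⟨hpS, t, ht, hd⟩ := hp
      rw [mem_biUnion]
      exact ⟨t, ht, mem_filter.mpr ⟨hpS, hd⟩⟩
    have h4 : ((S.filter fun p : ℕ => ∃ t ∈ Icc 1 T,
        (p : ℤ) ∣ (x.1 : ℤ) ^ t - (x.2 : ℤ) ^ t).card : ℝ) * Real.log 2 ≤ (T : ℝ) ^ 2 * Real.log N := by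
      have h5 : ((S.filter fun p : ℕ => ∃ t ∈ Icc 1 T,
          (p : ℤ) ∣ (x.1 : ℤ) ^ t - (x.2 : ℤ) ^ t).card : ℝ) ≤
          ∑ t ∈ Icc 1 T, ((S.filter fun p : ℕ => (p : ℤ) ∣ (x.1 : ℤ) ^ t - (x.2 : ℤ) ^ t).card : ℝ) := by
        exact_mod_cast (card_le_card h3).trans card_biUnion_le
      have h6 : ∀ t ∈ Icc 1 T,
          ((S.filter fun p : ℕ => (p : ℤ) ∣ (x.1 : ℤ) ^ t - (x.2 : ℤ) ^ t).card : ℝ) * Real.log 2 ≤
            T * Real.log N := by
        intro t ht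
        rw [mem_Icc] at ht
        have hz : (x.1 : ℤ) ^ t - (x.2 : ℤ) ^ t ≠ 0 := by
          rw [sub_ne_zero]
          intro h7
          have h8 : x.1 ^ t = x.2 ^ t := by exact_mod_cast h7
          exact hne (Nat.pow_left_injective (by omega) h8)
        have hb : |(x.1 : ℤ) ^ t - (x.2 : ℤ) ^ t| ≤ (N : ℤ) ^ t := by
          have e1 : (x.1 : ℤ) ^ t ≤ (N : ℤ) ^ t := by exact_mod_cast Nat.pow_le_pow_left hx2 t
          have e2 : (x.2 : ℤ) ^ t ≤ (N : ℤ) ^ t := by exact_mod_cast Nat.pow_le_pow_left hx4 t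
          have e3 : (0 : ℤ) ≤ (x.1 : ℤ) ^ t := by positivity
          have e4 : (0 : ℤ) ≤ (x.2 : ℤ) ^ t := by positivity
          rw [abs_le]
          constructor <;> linarith
        refine (card_prime_dvd S hS _ hz N t hN hb).trans ?_
        have : (t : ℝ) ≤ T := by exact_mod_cast ht.2
        gcongr
      have hl2 : 0 < Real.log 2 := Real.log_pos (by norm_num)
      calc _ ≤ (∑ t ∈ Icc 1 T,
            ((S.filter fun p : ℕ => (p : ℤ) ∣ (x.1 : ℤ) ^ t - (x.2 : ℤ) ^ t).card : ℝ)) * Real.log 2 := by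
            gcongr
        _ = ∑ t ∈ Icc 1 T,
            ((S.filter fun p : ℕ => (p : ℤ) ∣ (x.1 : ℤ) ^ t - (x.2 : ℤ) ^ t).card : ℝ) * Real.log 2 := by
            rw [sum_mul]
        _ ≤ ∑ _t ∈ Icc 1 T, (T * Real.log N) := sum_le_sum h6
        _ = _ := by
            rw [sum_const, nsmul_eq_mul, Nat.card_Icc]
            push_cast [Nat.add_sub_cancel]
            ring
    have h7 : 0 ≤ 1 / (x.1 : ℝ) * (1 / (x.2 : ℝ)) := by positivity
    calc _ = (((S.filter fun p : ℕ => ∃ t ∈ Icc 1 T,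
          (p : ℤ) ∣ (x.1 : ℤ) ^ t - (x.2 : ℤ) ^ t).card : ℝ) * Real.log 2) *
          (1 / (x.1 : ℝ) * (1 / (x.2 : ℝ))) := by ring
      _ ≤ _ := by gcongr
  rw [h1, sum_mul]
  refine (sum_le_sum h2).trans ?_
  rw [← mul_sum, mul_comm]
  have h8 : ∑ x ∈ (Icc 1 N ×ˢ Icc 1 N).filter (fun x : ℕ × ℕ => x.1 ≠ x.2),
      (1 / (x.1 : ℝ) * (1 / (x.2 : ℝ))) ≤ (1 + Real.log N) ^ 2 := by
    calc _ ≤ ∑ x ∈ (Icc 1 N ×ˢ Icc 1 N), (1 / (x.1 : ℝ) * (1 / (x.2 : ℝ))) := by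
          apply sum_le_sum_of_subset_of_nonneg (filter_subset _ _)
          intro x _ _
          positivity
      _ = (∑ a ∈ Icc 1 N, 1 / (a : ℝ)) ^ 2 := by rw [sum_product, pow_two, sum_mul_sum]
      _ ≤ _ := by
          have h9 : 0 ≤ ∑ a ∈ Icc 1 N, 1 / (a : ℝ) := sum_nonneg fun a _ => by positivity
          have := sum_inv_le N
          gcongr
  have h9 : 0 ≤ (T : ℝ) ^ 2 * Real.log N := by positivity
  exact mul_le_mul_of_nonneg_right h8 h9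

variable {p : ℕ} [hp : Fact p.Prime]

theorem fiber_bound2 (A B : (ZMod p)ˣ → ℕ) (hA0 : ∀ h, 0 < A h) (hB0 : ∀ h, 0 < B h)
    (hBp : ∀ h, B h < p)
    (hf : ∀ h : (ZMod p)ˣ, (h : ZMod p) * B h = A h ∨ (h : ZMod p) * B h = -A h)
    (S : Finset (ZMod p)ˣ) (K : Finset (ℕ × ℕ)) (hK : ∀ h ∈ S, (A h, B h) ∈ K) :
    ∑ h ∈ S, 1 / ((A h : ℝ) * B h) ≤ 2 * ∑ x ∈ K, (1 / (x.1 : ℝ) * (1 / (x.2 : ℝ))) := by
  have h1 : ∑ h ∈ S, 1 / ((A h : ℝ) * B h) =
      ∑ x ∈ K, ∑ h ∈ S with (A h, B h) = x, 1 / ((A h : ℝ) * B h) := by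
    symm
    apply sum_fiberwise_of_maps_to
    intro h hh
    exact hK h hh
  rw [h1, mul_sum]
  apply sum_le_sum
  intro x _
  have h3 : ∀ h ∈ S.filter (fun h => (A h, B h) = x), 1 / ((A h : ℝ) * B h) =
      1 / (x.1 : ℝ) * (1 / (x.2 : ℝ)) := by
    intro h hh
    rw [mem_filter] at hh
    rw [← hh.2]
    rw [one_div_mul_one_div]
  rw [sum_congr rfl h3, sum_const, nsmul_eq_mul]
  have h4 : (S.filter (fun h => (A h, B h) = x)).card ≤ 2 := by
    rcases (S.filter (fun h => (A h, B h) = x)).eq_empty_or_nonempty with h5 | ⟨h0, hh0⟩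
    · rw [h5]; simp
    · have h6 : S.filter (fun h => (A h, B h) = x) ⊆ {h0, -h0} := by
        intro h hh
        rw [mem_filter] at hh hh0
        rw [mem_insert, mem_singleton]
        have e1 : (A h, B h) = (A h0, B h0) := hh.2.trans hh0.2.symm
        have e2 : A h = A h0 := congrArg Prod.fst e1
        have e3 : B h = B h0 := congrArg Prod.snd e1
        have hb0 : ((B h0 : ℕ) : ZMod p) ≠ 0 := by
          rw [Ne, ZMod.natCast_eq_zero_iff]
          intro h1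
          have := Nat.le_of_dvd (hB0 h0) h1
          have := hBp h0
          omega
        have c1 := hf h
        have c2 := hf h0
        rw [e2, e3] at c1
        rcases c1 with c1 | c1 <;> rcases c2 with c2 | c2
        · left; apply Units.ext; exact mul_right_cancel₀ hb0 (c1.trans c2.symm)
        · right; apply Units.ext; rw [Units.val_neg]
          apply mul_right_cancel₀ hb0
          rw [c1, neg_mul, c2, neg_neg]
        · right; apply Units.ext; rw [Units.val_neg]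
          apply mul_right_cancel₀ hb0
          rw [c1, neg_mul, c2]
        · left; apply Units.ext; exact mul_right_cancel₀ hb0 (c1.trans c2.symm)
      exact (card_le_card h6).trans card_le_two
  have h7 : ((S.filter (fun h => (A h, B h) = x)).card : ℝ) ≤ 2 := by exact_mod_cast h4
  gcongr

/-- if `h = ± a / b` has order dividing `m`, then `p` divides `a ^ (2 m) - b ^ (2 m)` -/
theorem dvd_of_pow (h : (ZMod p)ˣ) (m : ℕ) (hpow : h ^ m = 1) (a b : ℕ)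
    (hh : (h : ZMod p) * b = a ∨ (h : ZMod p) * b = -a) :
    (p : ℤ) ∣ (a : ℤ) ^ (2 * m) - (b : ℤ) ^ (2 * m) := by
  rw [← ZMod.intCast_zmod_eq_zero_iff_dvd]
  push_cast
  have h1 : (a : ZMod p) ^ 2 = ((h : ZMod p) * b) ^ 2 := by
    rcases hh with hh | hh
    · rw [hh]
    · rw [hh, neg_sq]
  rw [pow_mul, h1, ← pow_mul, mul_pow, mul_comm 2 m, pow_mul (h : ZMod p), ← Units.val_pow_eq_pow_val,
    hpow, Units.val_one, one_pow, one_mul, sub_self]

namespace DL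

variable (D : DL p)

theorem err_bound2 (hp2 : p % 2 = 1) (d e : ℕ) (hd : 0 < d) (he : 0 < e) (hde : e * d = p - 1)
    (Q : ℝ) (hQ : 1 ≤ Q) (N T : ℕ) (hN : p ≤ N) (hT : 2 * (e * Q) ≤ T) :
    ∑ h : (ZMod p)ˣ with h ≠ 1 ∧ h ≠ -1, (|CC h| : ℝ) / (Nat.totient (D.oo d h) : ℝ) ≤
      (8 * Real.sqrt p + 1) * (e * (d.divisors.card : ℝ)) +
      p * (2 * (1 + Real.log p) ^ 2 * Real.sqrt (2 / Q) + 2 * WW p N T) := by
  have hp3 : 3 ≤ p := by
    have := hp.out.two_le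
    omega
  choose A B hA0 hB0 hcop hA2 hB2 hf using (fun h : (ZMod p)ˣ => exists_frac h)
  have hBp : ∀ h, B h < p := by
    intro h
    have := hB2 h
    have := hB0 h
    nlinarith
  have hAp : ∀ h, A h < p := by
    intro h
    have := hA2 h
    have := hA0 h
    nlinarith
  have hsq : ∀ n : ℕ, n ^ 2 < p → (n : ℝ) ≤ Real.sqrt p := by
    intro n hn
    apply Real.le_sqrt_of_sq_le
    exact_mod_cast hn.le
  set φ : (ZMod p)ˣ → ℝ := fun h => 1 / (Nat.totient (D.oo d h) : ℝ) with hφ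
  have hφ0 : ∀ h, 0 ≤ φ h := fun h => by simp only [hφ]; positivity
  have hφ1 : ∀ h, φ h ≤ 1 := by
    intro h
    simp only [hφ]
    have h1 : 0 < Nat.totient (D.oo d h) := Nat.totient_pos.mpr (D.oo_pos d hd h)
    rw [div_le_one (by exact_mod_cast h1)]
    exact_mod_cast h1
  have hpt : ∀ h, (|CC h| : ℝ) ≤ p * (1 / ((A h : ℝ) * B h)) + (8 * Real.sqrt p + 1) := by
    intro h
    have h1 := CC_bound hp2 h (A h) (B h) (hA0 h) (hB0 h) (hBp h) (hcop h) (hf h)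
    have h2 : ((A h : ℝ) * B h) * |(CC h : ℝ)| ≤ p + 4 * A h * B h * (A h + B h) + A h * B h := by
      exact_mod_cast h1
    have ha : (0 : ℝ) < A h := by exact_mod_cast hA0 h
    have hb : (0 : ℝ) < B h := by exact_mod_cast hB0 h
    have h3 := hsq _ (hA2 h)
    have h4 := hsq _ (hB2 h)
    have hab : 0 < (A h : ℝ) * B h := by positivity
    have h5 : |(CC h : ℝ)| ≤ (p + 4 * A h * B h * (A h + B h) + A h * B h) / ((A h : ℝ) * B h) := by
      rw [le_div_iff₀ hab]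
      linarith
    refine h5.trans ?_
    have h6 : (p + 4 * A h * B h * (A h + B h) + A h * B h : ℝ) / ((A h : ℝ) * B h) =
        p * (1 / ((A h : ℝ) * B h)) + 4 * (A h + B h) + 1 := by
      field_simp
    rw [h6]
    linarith
  set S := univ.filter (fun h : (ZMod p)ˣ => h ≠ 1 ∧ h ≠ -1) with hS
  have h1 : ∑ h ∈ S, (|CC h| : ℝ) / (Nat.totient (D.oo d h) : ℝ) ≤
      p * ∑ h ∈ S, (1 / ((A h : ℝ) * B h)) * φ h + (8 * Real.sqrt p + 1) * ∑ h ∈ S, φ h := by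
    rw [mul_sum, mul_sum, ← sum_add_distrib]
    apply sum_le_sum
    intro h _
    have h2 := mul_le_mul_of_nonneg_right (hpt h) (hφ0 h)
    calc (|CC h| : ℝ) / (Nat.totient (D.oo d h) : ℝ) = (|CC h| : ℝ) * φ h := by
          simp only [hφ]; ring
      _ ≤ _ := h2
      _ = _ := by ring
  have h2 : ∑ h ∈ S, φ h ≤ e * (d.divisors.card : ℝ) := by
    rw [← D.sum_inv_all d e hd hde]
    exact sum_le_sum_of_subset_of_nonneg (subset_univ _) fun h _ _ => hφ0 h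
  -- the two parts
  set S1 := S.filter (fun h => ¬ (D.oo d h : ℝ) ≤ Q) with hS1
  set S3 := S.filter (fun h => (D.oo d h : ℝ) ≤ Q) with hS3
  have hsplit : ∑ h ∈ S, (1 / ((A h : ℝ) * B h)) * φ h = ∑ h ∈ S1, (1 / ((A h : ℝ) * B h)) * φ h +
      ∑ h ∈ S3, (1 / ((A h : ℝ) * B h)) * φ h := by
    rw [← sum_filter_add_sum_filter_not S (fun h => (D.oo d h : ℝ) ≤ Q)]
    ring
  have hP1 : ∑ h ∈ S1, (1 / ((A h : ℝ) * B h)) * φ h ≤
      2 * (1 + Real.log p) ^ 2 * Real.sqrt (2 / Q) := by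
    have h3 : ∀ h ∈ S1, (1 / ((A h : ℝ) * B h)) * φ h ≤
        (1 / ((A h : ℝ) * B h)) * Real.sqrt (2 / Q) := by
      intro h hh
      rw [hS1, mem_filter] at hh
      have := inv_totient_le (D.oo d h) Q (by linarith) (not_le.mp hh.2).le
      simp only [hφ]
      gcongr
    refine (sum_le_sum h3).trans ?_
    rw [← sum_mul]
    have h4 := fiber_bound A B hA0 hB0 hBp hf S1 p (fun h _ => ⟨(hAp h).le, (hBp h).le⟩)
    gcongr
  have hP3 : ∑ h ∈ S3, (1 / ((A h : ℝ) * B h)) * φ h ≤ 2 * WW p N T := by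
    have h3 : ∀ h ∈ S3, (1 / ((A h : ℝ) * B h)) * φ h ≤ 1 / ((A h : ℝ) * B h) := by
      intro h _
      have := hφ1 h
      have h5 : 0 ≤ 1 / ((A h : ℝ) * B h) := by positivity
      nlinarith
    refine (sum_le_sum h3).trans ?_
    apply fiber_bound2 A B hA0 hB0 hBp hf S3 (bad p N T)
    intro h hh
    rw [hS3, mem_filter, hS, mem_filter] at hh
    obtain ⟨⟨_, hne, hne'⟩, hoo⟩ := hh
    unfold bad
    rw [mem_filter, mem_product, mem_Icc, mem_Icc]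
    refine ⟨⟨⟨hA0 h, (hAp h).le.trans hN⟩, hB0 h, (hBp h).le.trans hN⟩, ?_,
      2 * (e * D.oo d h), ?_, ?_⟩
    · intro hab
      dsimp only at hab
      have h5 := hcop h
      rw [hab, Nat.coprime_self] at h5
      rw [h5] at hab
      have h6 := hf h
      rw [hab, h5] at h6
      simp only [Nat.cast_one, mul_one] at h6
      rcases h6 with h6 | h6
      · exact hne (Units.ext h6)
      · exact hne' (Units.ext (by rw [h6, Units.val_neg, Units.val_one]))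
    · rw [mem_Icc]
      have h5 := D.oo_pos d hd h
      have h6 : 0 < e * D.oo d h := Nat.mul_pos he h5
      refine ⟨by omega, ?_⟩
      have h7 : ((2 * (e * D.oo d h) : ℕ) : ℝ) ≤ T := by
        push_cast
        refine le_trans ?_ hT
        gcongr
      exact_mod_cast h7
    · exact dvd_of_pow h (e * D.oo d h) (D.pow_oo d e hde h) (A h) (B h) (hf h)
  calc _ ≤ p * ∑ h ∈ S, (1 / ((A h : ℝ) * B h)) * φ h + (8 * Real.sqrt p + 1) * ∑ h ∈ S, φ h := h1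
    _ ≤ p * (2 * (1 + Real.log p) ^ 2 * Real.sqrt (2 / Q) + 2 * WW p N T) +
        (8 * Real.sqrt p + 1) * (e * (d.divisors.card : ℝ)) := by
        rw [hsplit]
        gcongr
    _ = _ := by ring

end DL

end Pool.Agent.U332.OI
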