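import Mathlib
import Pool.Agent.U332.OI.Alm1
import Pool.Agent.H510R2.Div

/-! # The error term of the mean square is small for almost all primes -/

namespace Pool.Agent.U332.OI

open Finset Filter

theorem ev_log (A σ : ℝ) (k : ℕ) (hA : 0 < A) (hσ : 0 < σ) :
    ∀ᶠ x : ℝ in atTop, A * (1 + Real.log x) ^ k ≤ x ^ σ := by
  have h := isLittleO_log_rpow_rpow_atTop (k : ℝ) hσ
  have h1 := h.bound (show (0 : ℝ) < 1 / (A * 2 ^ k) by positivity)
  filter_upwards [h1, eventually_ge_atTop (3 : ℝ)] with x hx hx3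
  have hx0 : 0 < x := by linarith
  have hl1 : 1 ≤ Real.log x := by
    rw [Real.le_log_iff_exp_le hx0]
    exact Real.exp_one_lt_d9.le.trans (by linarith)
  rw [Real.norm_of_nonneg (by positivity), Real.norm_of_nonneg (by positivity),
    Real.rpow_natCast, div_mul_eq_mul_div, one_mul, le_div_iff₀ (by positivity)] at hx
  calc A * (1 + Real.log x) ^ k ≤ A * (2 * Real.log x) ^ k := by
        gcongr
        linarith
    _ = Real.log x ^ k * (A * 2 ^ k) := by rw [mul_pow]; ring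
    _ ≤ _ := hx

theorem err_alm (θ κ η : ℝ) (hθ : 0 < θ) (hθ' : θ < 1 / 2) (hκ : 2 * θ < κ) (hη : 0 < η) :
    ∃ P₀ : ℕ, ∀ P : ℕ, P₀ ≤ P → ∃ S : Finset ℕ, (S.card : ℝ) ≤ (P : ℝ) ^ κ ∧
      ∀ (p : ℕ) [Fact p.Prime] (D : DL p), p ≤ P → p ∉ S → 3 ≤ p ∧ ∀ d e : ℕ, 0 < e →
        e * d = p - 1 → (e : ℝ) ≤ (p : ℝ) ^ θ →
        ∑ h : (ZMod p)ˣ with h ≠ 1 ∧ h ≠ -1, (|CC h| : ℝ) / (Nat.totient (D.oo d h) : ℝ) ≤
          η * p := by
  set σ : ℝ := (κ - 2 * θ) / 4 with hσ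
  have hσ0 : 0 < σ := by rw [hσ]; linarith
  set c : ℝ := (1 / 2 - θ) / 2 with hc
  have hc0 : 0 < c := by rw [hc]; linarith
  obtain ⟨C, hC0, hC⟩ := Pool.Agent.H510R2.divisor_bound c hc0
  have hl2 : 0 < Real.log 2 := Real.log_pos (by norm_num)
  have hcast : Tendsto (fun n : ℕ => (n : ℝ)) atTop atTop := tendsto_natCast_atTop_atTop
  -- the size of `Q`
  have E1 := hcast.eventually (ev_log (2 * Real.sqrt 2 * (4 / η)) (σ / 2) 2 (by positivity)
    (by positivity))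
  have E2 := hcast.eventually (ev_log (2 * (8 / (η * Real.log 2)) * 9) (2 * σ) 3 (by positivity)
    (by positivity))
  have E3 : ∀ᶠ P : ℕ in atTop, 2 * (max 3 ((36 * C / η) ^ (1 / c)) : ℝ) ≤ (P : ℝ) ^ κ :=
    ((tendsto_rpow_atTop (show 0 < κ by linarith)).comp hcast).eventually
      (eventually_ge_atTop _)
  obtain ⟨P₀, hP₀⟩ := eventually_atTop.mp ((E1.and (E2.and E3)).and (eventually_ge_atTop 3))
  refine ⟨P₀, fun P hP => ?_⟩
  obtain ⟨⟨h1, h2, h3⟩, h4⟩ := hP₀ P hP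
  have hP3 : (3 : ℝ) ≤ P := by exact_mod_cast h4
  have hP0 : (0 : ℝ) < P := by linarith
  have hP1 : (1 : ℝ) ≤ P := by linarith
  set T : ℕ := ⌈2 * (P : ℝ) ^ (θ + σ)⌉₊ with hT
  have hT1 : 2 * (P : ℝ) ^ (θ + σ) ≤ T := Nat.le_ceil _
  have hPs : 1 ≤ (P : ℝ) ^ (θ + σ) := Real.one_le_rpow hP1 (by linarith)
  have hT2 : (T : ℝ) ≤ 3 * (P : ℝ) ^ (θ + σ) := by
    have := Nat.ceil_lt_add_one (show 0 ≤ 2 * (P : ℝ) ^ (θ + σ) by positivity)
    rw [← hT] at this
    linarith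
  set PR : Finset ℕ := (Icc 1 P).filter Nat.Prime with hPR
  set S1 : Finset ℕ := (Icc 1 P).filter (fun p : ℕ => (p : ℝ) ≤ (P : ℝ) ^ κ / 2) with hS1
  set S2 : Finset ℕ := PR.filter (fun p : ℕ => η / 8 < WW p P T) with hS2
  have hlogP : 0 ≤ Real.log (P : ℝ) := Real.log_natCast_nonneg _
  refine ⟨S1 ∪ S2, ?_, ?_⟩
  · have hc1 : (S1.card : ℝ) ≤ (P : ℝ) ^ κ / 2 := by
      have h5 : S1 ⊆ Icc 1 ⌊(P : ℝ) ^ κ / 2⌋₊ := by
        intro p hp
        rw [hS1, mem_filter, mem_Icc] at hp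
        rw [mem_Icc]
        exact ⟨hp.1.1, Nat.le_floor hp.2⟩
      have h6 := card_le_card h5
      rw [Nat.card_Icc, Nat.add_sub_cancel] at h6
      calc (S1.card : ℝ) ≤ (⌊(P : ℝ) ^ κ / 2⌋₊ : ℝ) := by exact_mod_cast h6
        _ ≤ _ := Nat.floor_le (by positivity)
    have hc2 : (S2.card : ℝ) ≤ (P : ℝ) ^ κ / 2 := by
      have h5 := sum_WW PR (fun p hp => (mem_filter.mp hp).2) P T (by omega)
      have h6 : (η / 8) * S2.card ≤ ∑ p ∈ PR, WW p P T := by
        calc (η / 8) * S2.card = ∑ _p ∈ S2, η / 8 := by rw [sum_const, nsmul_eq_mul]; ring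
          _ ≤ ∑ p ∈ S2, WW p P T := sum_le_sum fun p hp => (mem_filter.mp hp).2.le
          _ ≤ _ := sum_le_sum_of_subset_of_nonneg (filter_subset _ _) fun p _ _ => WW_nonneg _ _ _
      have h7 : (1 + Real.log P) ^ 2 * ((T : ℝ) ^ 2 * Real.log P) ≤
          9 * (1 + Real.log P) ^ 3 * (P : ℝ) ^ (2 * θ + 2 * σ) := by
        have e1 : (T : ℝ) ^ 2 ≤ 9 * (P : ℝ) ^ (2 * θ + 2 * σ) := by
          have e2 : (P : ℝ) ^ (2 * θ + 2 * σ) = ((P : ℝ) ^ (θ + σ)) ^ 2 := by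
            rw [← Real.rpow_natCast, ← Real.rpow_mul hP0.le]
            congr 1
            push_cast
            ring
          rw [e2]
          calc (T : ℝ) ^ 2 ≤ (3 * (P : ℝ) ^ (θ + σ)) ^ 2 := by gcongr
            _ = _ := by ring
        calc (1 + Real.log P) ^ 2 * ((T : ℝ) ^ 2 * Real.log P) ≤
            (1 + Real.log P) ^ 2 * ((9 * (P : ℝ) ^ (2 * θ + 2 * σ)) * (1 + Real.log P)) := by
              gcongr
              linarith
          _ = _ := by ring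
      have h8 : (S2.card : ℝ) ≤ (8 / (η * Real.log 2)) *
          (9 * (1 + Real.log P) ^ 3 * (P : ℝ) ^ (2 * θ + 2 * σ)) := by
        rw [div_mul_eq_mul_div, le_div_iff₀ (by positivity)]
        have h9 := mul_le_mul_of_nonneg_right h6 hl2.le
        linarith
      have h9 : (P : ℝ) ^ (2 * σ) * (P : ℝ) ^ (2 * θ + 2 * σ) = (P : ℝ) ^ κ := by
        rw [← Real.rpow_add hP0]
        congr 1
        rw [hσ]; ring
      have h10 : 0 ≤ (P : ℝ) ^ (2 * θ + 2 * σ) := by positivity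
      have h11 := mul_le_mul_of_nonneg_right h2 h10
      rw [h9] at h11
      calc (S2.card : ℝ) ≤ _ := h8
        _ = (2 * (8 / (η * Real.log 2)) * 9 * (1 + Real.log P) ^ 3 *
            (P : ℝ) ^ (2 * θ + 2 * σ)) / 2 := by ring
        _ ≤ _ := by linarith
    calc ((S1 ∪ S2).card : ℝ) ≤ (S1.card + S2.card : ℕ) := by exact_mod_cast card_union_le _ _
      _ ≤ _ := by push_cast; linarith
  · intro p hp D hpP hpS
    rw [mem_union, not_or] at hpS
    obtain ⟨hpS1, hpS2⟩ := hpS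
    have hpI : p ∈ Icc 1 P := mem_Icc.mpr ⟨hp.out.one_le, hpP⟩
    have hplarge : (P : ℝ) ^ κ / 2 < p := by
      by_contra hcon
      exact hpS1 (mem_filter.mpr ⟨hpI, not_lt.mp hcon⟩)
    have hW : WW p P T ≤ η / 8 := by
      by_contra hcon
      exact hpS2 (mem_filter.mpr ⟨mem_filter.mpr ⟨hpI, hp.out⟩, not_le.mp hcon⟩)
    have hpm : (max 3 ((36 * C / η) ^ (1 / c)) : ℝ) ≤ p := by linarith
    have hp3' : (3 : ℝ) ≤ p := (le_max_left _ _).trans hpm
    have hp3 : 3 ≤ p := by exact_mod_cast hp3'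
    refine ⟨hp3, ?_⟩
    intro d e he hde heL
    have hp0 : (0 : ℝ) < p := by linarith
    have hp1 : (1 : ℝ) ≤ p := by linarith
    have hpP' : (p : ℝ) ≤ P := by exact_mod_cast hpP
    have hp2 : p % 2 = 1 := by
      rcases hp.out.eq_two_or_odd with h | h
      · omega
      · exact h
    have hd : 0 < d := by
      rcases Nat.eq_zero_or_pos d with h | h
      · rw [h, mul_zero] at hde
        omega
      · exact h
    have hQ : 1 ≤ (P : ℝ) ^ σ := Real.one_le_rpow hP1 hσ0.le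
    have hTT : 2 * ((e : ℝ) * (P : ℝ) ^ σ) ≤ T := by
      refine le_trans ?_ hT1
      have e1 : (e : ℝ) ≤ (P : ℝ) ^ θ := heL.trans (Real.rpow_le_rpow hp0.le hpP' hθ.le)
      rw [Real.rpow_add hP0]
      gcongr
    have key := D.err_bound2 hp2 d e hd he hde ((P : ℝ) ^ σ) hQ P T hpP hTT
    -- term 1
    have t1 : (8 * Real.sqrt p + 1) * (e * (d.divisors.card : ℝ)) ≤ η / 4 * p := by
      have hs1 : (1 : ℝ) ≤ Real.sqrt p := by
        rw [Real.one_le_sqrt]; linarith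
      have hdp : d ≤ p := by
        have : d ≤ e * d := Nat.le_mul_of_pos_left d he
        omega
      have hτ : (d.divisors.card : ℝ) ≤ C * (p : ℝ) ^ c := by
        refine (hC d hd).trans ?_
        have : (d : ℝ) ≤ p := by exact_mod_cast hdp
        gcongr
      have h5 : 36 * C / η ≤ (p : ℝ) ^ c := by
        have h6 : (36 * C / η) ^ (1 / c) ≤ (p : ℝ) := (le_max_right _ _).trans hpm
        have h7 := Real.rpow_le_rpow (by positivity) h6 hc0.le
        rwa [← Real.rpow_mul (by positivity), one_div_mul_cancel hc0.ne', Real.rpow_one] at h7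
      have h6 : Real.sqrt p * ((p : ℝ) ^ θ * (p : ℝ) ^ c) * (p : ℝ) ^ c = p := by
        rw [Real.sqrt_eq_rpow, ← Real.rpow_add hp0, ← Real.rpow_add hp0, ← Real.rpow_add hp0]
        have : 1 / 2 + (θ + c) + c = 1 := by rw [hc]; ring
        rw [this, Real.rpow_one]
      have h7 : 9 * C ≤ η / 4 * (p : ℝ) ^ c := by
        rw [div_le_iff₀ hη] at h5
        linarith
      calc (8 * Real.sqrt p + 1) * (e * (d.divisors.card : ℝ)) ≤
          (8 * Real.sqrt p + Real.sqrt p) * ((p : ℝ) ^ θ * (C * (p : ℝ) ^ c)) := by gcongr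
        _ = (9 * C) * (Real.sqrt p * ((p : ℝ) ^ θ * (p : ℝ) ^ c)) := by ring
        _ ≤ (η / 4 * (p : ℝ) ^ c) * (Real.sqrt p * ((p : ℝ) ^ θ * (p : ℝ) ^ c)) := by gcongr
        _ = η / 4 * (Real.sqrt p * ((p : ℝ) ^ θ * (p : ℝ) ^ c) * (p : ℝ) ^ c) := by ring
        _ = η / 4 * p := by rw [h6]
    -- term 2
    have t2 : 2 * (1 + Real.log p) ^ 2 * Real.sqrt (2 / (P : ℝ) ^ σ) ≤ η / 4 := by
      have hlp : Real.log p ≤ Real.log P := Real.log_le_log hp0 hpP'
      have hlp0 : 0 ≤ Real.log (p : ℝ) := Real.log_natCast_nonneg _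
      have e1 : Real.sqrt (2 / (P : ℝ) ^ σ) = Real.sqrt 2 / (P : ℝ) ^ (σ / 2) := by
        rw [Real.sqrt_div (by norm_num)]
        congr 1
        rw [Real.sqrt_eq_rpow, ← Real.rpow_mul hP0.le]
        congr 1
        ring
      rw [e1]
      have e2 : 0 < (P : ℝ) ^ (σ / 2) := by positivity
      rw [← mul_div_assoc, div_le_iff₀ e2]
      have e3 : (1 + Real.log p) ^ 2 ≤ (1 + Real.log P) ^ 2 := by gcongr
      have e4 : 2 * Real.sqrt 2 * (4 / η) * (1 + Real.log P) ^ 2 * (η / 4) ≤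
          (P : ℝ) ^ (σ / 2) * (η / 4) := by gcongr
      have e5 : 2 * Real.sqrt 2 * (4 / η) * (1 + Real.log P) ^ 2 * (η / 4) =
          2 * (1 + Real.log P) ^ 2 * Real.sqrt 2 := by
        field_simp
      have e6 : 2 * (1 + Real.log p) ^ 2 * Real.sqrt 2 ≤ 2 * (1 + Real.log P) ^ 2 * Real.sqrt 2 := by
        gcongr
      linarith
    calc _ ≤ _ := key
      _ ≤ η / 4 * p + p * (η / 4 + 2 * (η / 8)) := by gcongr
      _ ≤ _ := by nlinarith

end Pool.Agent.U332.OI
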