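import Mathlib
import Pool.Agent.U332.OI.Err

/-! # The mean square over the characters of exact order `d` -/

namespace Pool.Agent.U332.OI

open Finset Polynomial

variable {p : ℕ} [hp : Fact p.Prime]

theorem prim_facts (hp2 : p % 2 = 1) (d e : ℕ) (he : Odd e) (hde : e * d = p - 1) {z : ℂ}
    (hz : IsPrimitiveRoot z d) : z ^ (p - 1) = 1 ∧ z ^ ((p - 1) / 2) = -1 := by
  have hp1 := hp.out.two_le
  have hd : 0 < d := by
    rcases Nat.eq_zero_or_pos d with h | h
    · rw [h, mul_zero] at hde; omega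
    · exact h
  have hde2 : Even (e * d) := by
    rw [hde, Nat.even_iff]; omega
  have hd2 : Even d := by
    rcases Nat.even_mul.mp hde2 with h | h
    · exact absurd h (Nat.not_even_iff_odd.mpr he)
    · exact h
  obtain ⟨c, hc⟩ := hd2
  have hc0 : 0 < c := by omega
  have h1 : z ^ c = -1 := by
    have h2 : (z ^ c) ^ 2 = 1 := by
      rw [← pow_mul, mul_two, ← hc, hz.pow_eq_one]
    have h5 : (z ^ c - 1) * (z ^ c + 1) = 0 := by linear_combination h2
    rcases mul_eq_zero.mp h5 with h3 | h3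
    · exact absurd (Nat.le_of_dvd hc0 (hz.dvd_of_pow_eq_one c (sub_eq_zero.mp h3))) (by omega)
    · exact eq_neg_of_add_eq_zero_left h3
  constructor
  · rw [← hde, mul_comm, pow_mul, hz.pow_eq_one, one_pow]
  · have h4 : (p - 1) / 2 = c * e := by
      rw [← hde, hc]
      have : e * (c + c) = 2 * (c * e) := by ring
      rw [this]
      omega
    rw [h4, pow_mul, h1, he.neg_one_pow]

namespace DL

variable (D : DL p)

theorem mean_bound (hp2 : p % 2 = 1) (d e : ℕ) (he : Odd e) (hde : e * d = p - 1) :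
    4 * ∑ z ∈ primitiveRoots d ℂ, ‖aeval z D.f‖ ^ 2 ≤ Nat.totient d * (2 * p +
      ∑ h : (ZMod p)ˣ with h ≠ 1 ∧ h ≠ -1, (|CC h| : ℝ) / (Nat.totient (D.oo d h) : ℝ)) := by
  have hp1 := hp.out.two_le
  have hd : 0 < d := by
    rcases Nat.eq_zero_or_pos d with h | h
    · rw [h, mul_zero] at hde; omega
    · exact h
  have h1 : ((4 * ∑ z ∈ primitiveRoots d ℂ, ‖aeval z D.f‖ ^ 2 : ℝ) : ℂ) =
      ∑ h : (ZMod p)ˣ, (CC h : ℂ) * ∑ z ∈ primitiveRoots d ℂ, z ^ D.ind h := by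
    push_cast
    rw [mul_sum]
    have h2 : ∀ z ∈ primitiveRoots d ℂ, (4 * ‖aeval z D.f‖ ^ 2 : ℂ) =
        ∑ h : (ZMod p)ˣ, (CC h : ℂ) * z ^ D.ind h := by
      intro z hz
      obtain ⟨h3, h4⟩ := prim_facts hp2 d e he hde (isPrimitiveRoot_of_mem_primitiveRoots hz)
      exact D.norm_sq_eq h3 h4 hp2
    rw [sum_congr rfl h2, sum_comm]
    apply sum_congr rfl
    intro h _
    rw [mul_sum]
  have h2 : 4 * ∑ z ∈ primitiveRoots d ℂ, ‖aeval z D.f‖ ^ 2 =
      ‖((4 * ∑ z ∈ primitiveRoots d ℂ, ‖aeval z D.f‖ ^ 2 : ℝ) : ℂ)‖ := by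
    rw [Complex.norm_real, Real.norm_of_nonneg (by positivity)]
  rw [h2, h1]
  refine (norm_sum_le _ _).trans ?_
  have h3 : ∀ h : (ZMod p)ˣ, ‖(CC h : ℂ) * ∑ z ∈ primitiveRoots d ℂ, z ^ D.ind h‖ ≤
      Nat.totient d * ((|CC h| : ℝ) / (Nat.totient (D.oo d h) : ℝ)) := by
    intro h
    rw [norm_mul, Complex.norm_intCast]
    have h4 := sum_pow_bound d (D.ind h) hd
    have h5 : 0 < Nat.totient (D.oo d h) := Nat.totient_pos.mpr (D.oo_pos d hd h)
    have h6 : ‖∑ z ∈ primitiveRoots d ℂ, z ^ D.ind h‖ ≤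
        Nat.totient d / (Nat.totient (D.oo d h) : ℝ) := by
      rw [le_div_iff₀ (by exact_mod_cast h5), mul_comm]
      exact h4
    calc |(CC h : ℝ)| * ‖∑ z ∈ primitiveRoots d ℂ, z ^ D.ind h‖ ≤
        |(CC h : ℝ)| * (Nat.totient d / (Nat.totient (D.oo d h) : ℝ)) := by gcongr
      _ = _ := by ring
  refine (sum_le_sum fun h _ => h3 h).trans ?_
  rw [← mul_sum]
  have hsplit := sum_filter_add_sum_filter_not (univ : Finset (ZMod p)ˣ)
    (fun h => h ≠ 1 ∧ h ≠ -1) (fun h => (|CC h| : ℝ) / (Nat.totient (D.oo d h) : ℝ))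
  rw [← hsplit]
  have h7 : ∑ h ∈ univ.filter (fun h : (ZMod p)ˣ => ¬ (h ≠ 1 ∧ h ≠ -1)),
      (|CC h| : ℝ) / (Nat.totient (D.oo d h) : ℝ) ≤ 2 * p := by
    have h8 : univ.filter (fun h : (ZMod p)ˣ => ¬ (h ≠ 1 ∧ h ≠ -1)) ⊆ {1, -1} := by
      intro h hh
      rw [mem_filter] at hh
      rw [mem_insert, mem_singleton]
      tauto
    have h9 : ∀ h ∈ ({1, -1} : Finset (ZMod p)ˣ),
        (|CC h| : ℝ) / (Nat.totient (D.oo d h) : ℝ) ≤ p := by
      intro h hh
      have h10 : |(CC h : ℝ)| ≤ p := by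
        have h11 : |CC h| ≤ p := by
          rw [mem_insert, mem_singleton] at hh
          rcases hh with rfl | rfl
          · rw [CC_one, abs_of_nonneg (by omega)]; omega
          · rw [CC_neg hp2, abs_neg, CC_one, abs_of_nonneg (by omega)]; omega
        exact_mod_cast h11
      have h5 : 0 < Nat.totient (D.oo d h) := Nat.totient_pos.mpr (D.oo_pos d hd h)
      refine (div_le_self (abs_nonneg _) (by exact_mod_cast h5)).trans h10
    calc _ ≤ ∑ h ∈ ({1, -1} : Finset (ZMod p)ˣ), (|CC h| : ℝ) / (Nat.totient (D.oo d h) : ℝ) :=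
          sum_le_sum_of_subset_of_nonneg h8 fun h _ _ => by positivity
      _ ≤ ∑ h ∈ ({1, -1} : Finset (ZMod p)ˣ), (p : ℝ) := sum_le_sum h9
      _ = (({1, -1} : Finset (ZMod p)ˣ).card : ℝ) * p := by rw [sum_const, nsmul_eq_mul]
      _ ≤ 2 * p := by
          have : ({1, -1} : Finset (ZMod p)ˣ).card ≤ 2 := card_le_two
          have : (({1, -1} : Finset (ZMod p)ˣ).card : ℝ) ≤ 2 := by exact_mod_cast this
          gcongr
  have h8 : (0 : ℝ) ≤ Nat.totient d := by positivity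
  nlinarith

end DL

end Pool.Agent.U332.OI
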