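import Mathlib

/-! # The integer resultant with a cyclotomic polynomial -/

namespace Pool.Agent.U332.OI

open Finset Polynomial

theorem exists_norm (d : ℕ) (f : ℤ[X]) : ∃ N : ℤ, ∀ (R : Type) [CommRing R] [IsDomain R] (ζ : R),
    IsPrimitiveRoot ζ d → (N : R) = ∏ μ ∈ primitiveRoots d R, aeval μ f := by
  refine ⟨resultant (cyclotomic d ℤ) f, ?_⟩
  intro R _ _ ζ hζ
  have h1 : ((resultant (cyclotomic d ℤ) f : ℤ) : R) =
      resultant ((cyclotomic d ℤ).map (Int.castRingHom R)) (f.map (Int.castRingHom R))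
        (cyclotomic d ℤ).natDegree f.natDegree := by
    rw [resultant_map_map]
    simp
  rw [h1, map_cyclotomic]
  have h2 : cyclotomic d R = ∏ μ ∈ primitiveRoots d R, (X - C μ) :=
    cyclotomic_eq_prod_X_sub_primitiveRoots hζ
  have h3 : (cyclotomic d ℤ).natDegree = (cyclotomic d R).natDegree := by
    rw [natDegree_cyclotomic, natDegree_cyclotomic]
  have hsp : (cyclotomic d R).Splits := by
    rw [h2]
    exact Splits.prod fun μ _ => Splits.X_sub_C μ
  rw [h3, resultant_eq_prod_eval _ _ _ natDegree_map_le hsp,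
    (cyclotomic.monic d R).leadingCoeff, one_pow, one_mul, h2, roots_prod_X_sub_C]
  rw [Finset.prod_eq_multiset_prod]
  congr 1
  apply Multiset.map_congr rfl
  intro μ _
  rw [← eval_map_algebraMap, algebraMap_int_eq]

end Pool.Agent.U332.OI
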