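import Mathlib
import Pool.Agent.R361.QF.BernHalf
import Pool.Agent.U332.OI.Mean
import Pool.Agent.U332.OI.Norm

/-! # Irregular indices and the integer norm -/

namespace Pool.Agent.U332.OI

open Finset Polynomial

variable {p : ℕ} [hp : Fact p.Prime]

theorem sum_low {M : Type} [AddCommMonoid M] (hp2 : p % 2 = 1) (F : ZMod p → M) :
    ∑ u ∈ low p, F (u : ZMod p) = ∑ a ∈ Icc 1 ((p - 1) / 2), F (a : ZMod p) := by
  have hp1 := hp.out.two_le
  refine sum_bij (fun (u : (ZMod p)ˣ) _ => (u : ZMod p).val) ?_ ?_ ?_ ?_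
  · intro u hu
    unfold low at hu
    rw [mem_filter] at hu
    rw [mem_Icc]
    refine ⟨Nat.pos_of_ne_zero ?_, hu.2⟩
    rw [Ne, ZMod.val_eq_zero]
    exact u.ne_zero
  · intro u _ v _ h
    exact Units.ext (ZMod.val_injective p h)
  · intro a ha
    rw [mem_Icc] at ha
    have h0 : ((a : ℕ) : ZMod p) ≠ 0 := by
      rw [Ne, ZMod.natCast_eq_zero_iff]
      intro h1
      have := Nat.le_of_dvd (by omega) h1
      omega
    obtain ⟨u, hu⟩ := isUnit_iff_ne_zero.mpr h0
    have h1 : (u : ZMod p).val = a := by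
      rw [hu, ZMod.val_natCast, Nat.mod_eq_of_lt (by omega)]
    refine ⟨u, ?_, h1⟩
    unfold low
    rw [mem_filter]
    exact ⟨mem_univ _, by rw [h1]; exact ha.2⟩
  · intro u _
    simp

/-- Teichmüller representative of a unit -/
theorem exists_teich (u : (ZMod p)ˣ) : ∃ z : ℤ_[p], z ^ (p - 1) = 1 ∧
    PadicInt.toZMod z = (u : ZMod p) := by
  have hp1 : 1 < p := hp.out.one_lt
  set N := p - 1 with hNdef
  have hN : 0 < N := by omega
  have hNp : ¬ p ∣ N := by
    intro h
    have h1 := Nat.le_of_dvd hN h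
    omega
  obtain ⟨a, ha⟩ : ∃ a : ℤ_[p], PadicInt.toZMod a = (u : ZMod p) :=
    ⟨((u : ZMod p).val : ℤ_[p]), by simp⟩
  have hmax : ∀ z : ℤ_[p], z ∈ IsLocalRing.maximalIdeal ℤ_[p] ↔ PadicInt.toZMod z = 0 := by
    intro z
    rw [← PadicInt.ker_toZMod, RingHom.mem_ker]
  have huN : ((u : ZMod p)) ^ N = 1 := by
    rw [← Units.val_pow_eq_pow_val, hNdef, ZMod.units_pow_card_sub_one_eq_one, Units.val_one]
  have hmon : (Polynomial.X ^ N - 1 : Polynomial ℤ_[p]).Monic := by
    have := Polynomial.monic_X_pow_sub_C (1 : ℤ_[p]) hN.ne'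
    rwa [map_one] at this
  obtain ⟨z, hz, hza⟩ := HenselianRing.is_henselian (I := IsLocalRing.maximalIdeal ℤ_[p])
    (Polynomial.X ^ N - 1 : Polynomial ℤ_[p]) hmon a (by
      rw [hmax]
      simp [ha, huN]) (by
      apply IsUnit.map
      rw [← IsLocalRing.notMem_maximalIdeal, hmax]
      have h1 : (Polynomial.derivative (Polynomial.X ^ N - 1 : Polynomial ℤ_[p])).eval a =
        N * a ^ (N - 1) := by simp [Polynomial.derivative_X_pow]
      rw [h1, map_mul, map_pow, ha, map_natCast]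
      intro h2
      rcases mul_eq_zero.1 h2 with h3 | h3
      · exact hNp ((ZMod.natCast_eq_zero_iff N p).1 h3)
      · exact pow_ne_zero _ u.ne_zero h3)
  refine ⟨z, ?_, ?_⟩
  · have h1 : (Polynomial.X ^ N - 1 : Polynomial ℤ_[p]).eval z = 0 := hz
    rw [Polynomial.eval_sub, Polynomial.eval_pow, Polynomial.eval_X, Polynomial.eval_one,
      sub_eq_zero] at h1
    exact h1
  · rw [hmax, map_sub, ha, sub_eq_zero] at hza
    exact hza

theorem toZMod_dvd (x : ℤ_[p]) (h : PadicInt.toZMod x = 0) : (p : ℤ_[p]) ∣ x := by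
  rw [← RingHom.mem_ker, PadicInt.ker_toZMod, PadicInt.maximalIdeal_eq_span_p,
    Ideal.mem_span_singleton] at h
  exact h

/-- the irregular indices `k` with `gcd(k, p - 1) = e` -/
noncomputable def irr (p e : ℕ) : Finset ℕ :=
  (Icc 1 (p - 3)).filter fun k => Nat.gcd k (p - 1) = e ∧ (p : ℤ) ∣ (_root_.bernoulli (k + 1)).num

namespace DL

variable (D : DL p)

open Classical in
theorem pow_dvd_norm (hp3 : 3 ≤ p) (d e : ℕ) (he : 0 < e) (hde : e * d = p - 1) (N : ℤ)
    (hN : ∀ (R : Type) [CommRing R] [IsDomain R] (ζ : R),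
      IsPrimitiveRoot ζ d → (N : R) = ∏ μ ∈ primitiveRoots d R, aeval μ D.f) :
    (p : ℤ) ^ (irr p e).card ∣ N := by
  have hp2 : p % 2 = 1 := by
    rcases hp.out.eq_two_or_odd with h | h
    · omega
    · exact h
  have hd : 0 < d := by
    rcases Nat.eq_zero_or_pos d with h | h
    · rw [h, mul_zero] at hde; omega
    · exact h
  obtain ⟨ω, hω1, hωg⟩ := exists_teich D.g
  have hωprim : IsPrimitiveRoot ω (p - 1) := by
    refine ⟨hω1, fun l hl => ?_⟩
    have h2 : ((D.g : ZMod p)) ^ l = 1 := by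
      rw [← hωg, ← map_pow, hl, map_one]
    have h3 : D.g ^ l = 1 := by
      apply Units.ext
      rw [Units.val_pow_eq_pow_val, h2, Units.val_one]
    rw [← D.hg]
    exact orderOf_dvd_of_pow_eq_one h3
  have hωd : IsPrimitiveRoot (ω ^ e) d := hωprim.pow (by omega) hde.symm
  have hNp := hN ℤ_[p] (ω ^ e) hωd
  -- the map k ↦ ω ^ k
  have hprim : ∀ k, Nat.gcd k (p - 1) = e → IsPrimitiveRoot (ω ^ k) d := by
    intro k hk
    have h1 : orderOf ω = p - 1 := hωprim.eq_orderOf.symm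
    have h3 : IsOfFinOrder ω := by
      rw [← orderOf_pos_iff, h1]
      omega
    have h2 : orderOf (ω ^ k) = d := by
      rw [h3.orderOf_pow, h1, Nat.gcd_comm, hk, ← hde, Nat.mul_div_cancel_left _ he]
    rw [← h2]
    exact IsPrimitiveRoot.orderOf _
  set I : Finset ℤ_[p] := (irr p e).image (fun k => ω ^ k) with hI
  have hIcard : I.card = (irr p e).card := by
    rw [hI]
    apply card_image_of_injOn
    intro a ha b hb hab
    unfold irr at ha hb
    rw [mem_coe, mem_filter, mem_Icc] at ha hb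
    exact hωprim.pow_inj (by omega) (by omega) hab
  have hIsub : I ⊆ primitiveRoots d ℤ_[p] := by
    intro x hx
    rw [hI, mem_image] at hx
    obtain ⟨k, hk, rfl⟩ := hx
    unfold irr at hk
    rw [mem_filter] at hk
    rw [mem_primitiveRoots hd]
    exact hprim k hk.2.1
  have hIdvd : ∀ x ∈ I, (p : ℤ_[p]) ∣ aeval x D.f := by
    intro x hx
    rw [hI, mem_image] at hx
    obtain ⟨k, hk, rfl⟩ := hx
    unfold irr at hk
    rw [mem_filter, mem_Icc] at hk
    apply toZMod_dvd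
    rw [D.aeval_f, map_sum]
    have h1 : ∀ u ∈ low p, PadicInt.toZMod ((ω ^ k) ^ D.ind u) = ((u : ZMod p)) ^ k := by
      intro u _
      rw [map_pow, map_pow, hωg, ← pow_mul, mul_comm, pow_mul, ← Units.val_pow_eq_pow_val,
        D.hind]
    rw [sum_congr rfl h1, sum_low hp2 (fun x => x ^ k)]
    exact Pool.Agent.R361.QF.half_pow_sum p hp3 k hk.1.1 (by omega) hk.2.2
  have h1 : (p : ℤ_[p]) ^ (irr p e).card ∣ (N : ℤ_[p]) := by
    rw [hNp, ← hIcard, ← prod_const]
    exact (prod_dvd_prod_of_dvd _ _ hIdvd).trans (prod_dvd_prod_of_subset _ _ _ hIsub)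
  exact (PadicInt.pow_p_dvd_int_iff _ _).mp h1

end DL

end Pool.Agent.U332.OI
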