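import Mathlib
import Pool.Agent.R361.QF.HalfNe
import Pool.Agent.H343R2.PV
import Pool.Agent.U332.OI.Padic
import Pool.Agent.U332.OI.Mean2

/-! # The Dirichlet characters behind the polynomial `f` -/

namespace Pool.Agent.U332.OI

open Finset Polynomial

variable {p : ℕ} [hp : Fact p.Prime]

namespace DL

variable (D : DL p)

theorem exists_chi (hp2 : p % 2 = 1) {z : ℂ} (hz : z ^ (p - 1) = 1)
    (hz2 : z ^ ((p - 1) / 2) = -1) : ∃ χ : DirichletCharacter ℂ p, χ.Odd ∧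
      ∑ a ∈ Icc 1 ((p - 1) / 2), χ (a : ZMod p) = aeval z D.f := by
  have hp1 := hp.out.two_le
  have hn : p - 1 ≠ 0 := by omega
  set zu : ℂˣ := Units.ofPowEqOne z (p - 1) hz hn with hzu
  have hzv : (zu : ℂ) = z := by rw [hzu]; rfl
  have hzu1 : zu ^ (p - 1) = 1 := by
    apply Units.ext
    rw [Units.val_pow_eq_pow_val, hzv, hz, Units.val_one]
  let F : (ZMod p)ˣ →* ℂˣ :=
    { toFun := fun u => zu ^ D.ind u
      map_one' := by rw [D.ind_one, pow_zero]
      map_mul' := by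
        intro u v
        rw [← pow_add]
        exact pow_eq_pow_of_modEq (D.ind_mul_modEq u v) hzu1 }
  set χ : DirichletCharacter ℂ p := MulChar.ofUnitHom F with hχ
  have hval : ∀ u : (ZMod p)ˣ, χ (u : ZMod p) = z ^ D.ind u := by
    intro u
    rw [hχ, MulChar.ofUnitHom_coe]
    show ((zu ^ D.ind u : ℂˣ) : ℂ) = _
    rw [Units.val_pow_eq_pow_val, hzv]
  refine ⟨χ, ?_, ?_⟩
  · unfold DirichletCharacter.Odd
    have := hval (-1)
    rw [Units.val_neg, Units.val_one, D.ind_neg_one hp2, hz2] at this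
    exact this
  · rw [← sum_low hp2, D.aeval_f]
    exact sum_congr rfl fun u _ => hval u

theorem aeval_ne (hp2 : p % 2 = 1) {z : ℂ} (hz : z ^ (p - 1) = 1)
    (hz2 : z ^ ((p - 1) / 2) = -1) : aeval z D.f ≠ 0 := by
  obtain ⟨χ, hχ, h⟩ := D.exists_chi hp2 hz hz2
  rw [← h]
  exact Pool.Agent.R361.QF.half_ne hp2 χ hχ

theorem aeval_le (hp2 : p % 2 = 1) {z : ℂ} (hz : z ^ (p - 1) = 1)
    (hz2 : z ^ ((p - 1) / 2) = -1) : ‖aeval z D.f‖ ≤ Real.sqrt p * (1 + Real.log p) := by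
  obtain ⟨χ, hχ, h⟩ := D.exists_chi hp2 hz hz2
  rw [← h]
  apply H343.PVaux.PV_plain p _ hp.out.two_le χ
  rw [DirichletCharacter.isPrimitive_def]
  have hNZ : NeZero p := ⟨hp.out.ne_zero⟩
  rcases (Nat.dvd_prime hp.out).mp χ.conductor_dvd_level with h1 | h1
  · exfalso
    have h2 : χ = 1 := DirichletCharacter.eq_one_iff_conductor_eq_one.mpr h1
    unfold DirichletCharacter.Odd at hχ
    rw [h2, MulChar.one_apply (isUnit_one.neg)] at hχ
    norm_num at hχ
  · exact h1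

/-- `p ^ r` is at most the product of the half sums -/
theorem pow_le_prod (hp3 : 3 ≤ p) (d e : ℕ) (he : Odd e) (hde : e * d = p - 1) :
    (p : ℝ) ^ (irr p e).card ≤ ∏ z ∈ primitiveRoots d ℂ, ‖aeval z D.f‖ := by
  have hp2 : p % 2 = 1 := by
    rcases hp.out.eq_two_or_odd with h | h
    · omega
    · exact h
  have hd : 0 < d := by
    rcases Nat.eq_zero_or_pos d with h | h
    · rw [h, mul_zero] at hde; omega
    · exact h
  obtain ⟨N, hN⟩ := exists_norm d D.f
  have h1 := D.pow_dvd_norm hp3 d e he.pos hde N hN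
  have h2 := hN ℂ _ (Complex.isPrimitiveRoot_exp d hd.ne')
  have h3 : ‖(N : ℂ)‖ = ∏ z ∈ primitiveRoots d ℂ, ‖aeval z D.f‖ := by
    rw [h2, norm_prod]
  have h4 : N ≠ 0 := by
    intro h0
    rw [h0, Int.cast_zero, eq_comm, prod_eq_zero_iff] at h2
    obtain ⟨z, hz, hz0⟩ := h2
    obtain ⟨h5, h6⟩ := prim_facts hp2 d e he hde (isPrimitiveRoot_of_mem_primitiveRoots hz)
    exact D.aeval_ne hp2 h5 h6 hz0
  rw [← h3, Complex.norm_intCast]
  have h5 := Int.le_of_dvd (abs_pos.mpr h4) ((dvd_abs _ _).mpr h1)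
  exact_mod_cast h5

end DL

end Pool.Agent.U332.OI
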