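import Mathlib
import Pool.Agent.U332.OI.Err2
import Pool.Agent.H.MP_1efb31_co.A

/-! # The error term is small -/

namespace Pool.Agent.U332.OI

open Finset Filter

theorem ev1 (c η : ℝ) (hc : 0 ≤ c) (hη : 0 < η) :
    ∀ᶠ x : ℝ in atTop, 9 ^ 8 * c * (Real.log x) ^ 8 ≤ η ^ 8 * x ^ 3 := by
  have h := isLittleO_log_rpow_rpow_atTop (8 : ℝ) (show (0 : ℝ) < 3 by norm_num)
  have h1 := h.bound (show (0 : ℝ) < η ^ 8 / (9 ^ 8 * (c + 1)) by positivity)
  filter_upwards [h1, eventually_ge_atTop (1 : ℝ)] with x hx hx1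
  have hl : 0 ≤ Real.log x := Real.log_nonneg hx1
  rw [Real.norm_of_nonneg (by positivity), Real.norm_of_nonneg (by positivity)] at hx
  have e1 : Real.log x ^ (8 : ℝ) = Real.log x ^ 8 := by
    rw [← Real.rpow_natCast]; norm_num
  have e2 : x ^ (3 : ℝ) = x ^ 3 := by
    rw [← Real.rpow_natCast]; norm_num
  rw [e1, e2, div_mul_eq_mul_div, le_div_iff₀ (by positivity)] at hx
  have : 0 ≤ Real.log x ^ 8 := by positivity
  nlinarith

theorem ev2 (η : ℝ) (hη : 0 < η) :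
    ∀ᶠ L : ℝ in atTop, 2 * (1 + L) ^ 2 * Real.sqrt (2 / L ^ 5) ≤ η := by
  filter_upwards [eventually_ge_atTop (1 : ℝ), eventually_ge_atTop (2 * (8 / η) ^ 2)] with L h1 h2
  have hL : 0 < L := by linarith
  have e1 : L ^ 2 * Real.sqrt (2 / L ^ 5) = Real.sqrt (2 / L) := by
    have : Real.sqrt (2 / L) = Real.sqrt ((L ^ 2) ^ 2 * (2 / L ^ 5)) := by
      congr 1
      field_simp
    rw [this, Real.sqrt_mul (by positivity), Real.sqrt_sq (by positivity)]
  have e2 : Real.sqrt (2 / L) ≤ η / 8 := by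
    rw [Real.sqrt_le_iff]
    refine ⟨by positivity, ?_⟩
    rw [div_le_iff₀ hL]
    have : (η / 8) ^ 2 * (2 * (8 / η) ^ 2) = 2 := by field_simp
    calc (2 : ℝ) = (η / 8) ^ 2 * (2 * (8 / η) ^ 2) := this.symm
      _ ≤ _ := by gcongr
  have e3 : (1 + L) ^ 2 ≤ 4 * L ^ 2 := by nlinarith
  calc 2 * (1 + L) ^ 2 * Real.sqrt (2 / L ^ 5) ≤ 2 * (4 * L ^ 2) * Real.sqrt (2 / L ^ 5) := by
        gcongr
    _ = 8 * (L ^ 2 * Real.sqrt (2 / L ^ 5)) := by ring
    _ = 8 * Real.sqrt (2 / L) := by rw [e1]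
    _ ≤ 8 * (η / 8) := by gcongr
    _ = η := by ring

theorem ev3 (η : ℝ) (hη : 0 < η) :
    ∀ᶠ L : ℝ in atTop, L * L ^ 5 / L ^ 8 ≤ η := by
  filter_upwards [eventually_ge_atTop (1 : ℝ), eventually_ge_atTop (1 / η)] with L h1 h2
  have hL : 0 < L := by linarith
  rw [div_le_iff₀ (by positivity)]
  have h3 : 1 ≤ η * L := by
    rw [div_le_iff₀ hη] at h2
    linarith
  calc L * L ^ 5 = 1 * L ^ 6 * 1 := by ring
    _ ≤ (η * L) * L ^ 6 * L := by gcongr
    _ = _ := by ring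

theorem ev4 (ε η : ℝ) (hε : 0 < ε) (hη : 0 < η) :
    ∀ᶠ L : ℝ in atTop, 2 * (1 + Real.log (L ^ 8)) ^ 2 *
      Real.sqrt (2 * L ^ (1 - ε) * Real.log (L ^ 8) / (L - Real.log 2)) ≤ η := by
  have h := isLittleO_log_rpow_rpow_atTop (5 : ℝ) hε
  have h1 := h.bound (show (0 : ℝ) < η ^ 2 / (162 ^ 2 * 32) by positivity)
  filter_upwards [h1, eventually_ge_atTop (3 : ℝ)] with L hL1 hL3
  have hL : 0 < L := by linarith
  have hl1 : 1 ≤ Real.log L := by
    rw [Real.le_log_iff_exp_le hL]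
    exact Real.exp_one_lt_d9.le.trans (by linarith)
  rw [Real.norm_of_nonneg (by positivity), Real.norm_of_nonneg (by positivity)] at hL1
  have e1 : Real.log L ^ (5 : ℝ) = Real.log L ^ 5 := by
    rw [← Real.rpow_natCast]; norm_num
  rw [e1, div_mul_eq_mul_div, le_div_iff₀ (by positivity)] at hL1
  have e2 : Real.log (L ^ 8) = 8 * Real.log L := by
    rw [Real.log_pow]; norm_num
  rw [e2]
  have e3 : L / 2 ≤ L - Real.log 2 := by
    have := Real.log_two_lt_d9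
    linarith
  have e4 : L ^ (1 - ε) = L / L ^ ε := by
    rw [Real.rpow_sub hL, Real.rpow_one]
  have hLe : 0 < L ^ ε := by positivity
  have e5 : 2 * L ^ (1 - ε) * (8 * Real.log L) / (L - Real.log 2) ≤ 32 * Real.log L / L ^ ε := by
    calc 2 * L ^ (1 - ε) * (8 * Real.log L) / (L - Real.log 2) ≤
        2 * L ^ (1 - ε) * (8 * Real.log L) / (L / 2) := by gcongr
      _ = 32 * Real.log L / L ^ ε := by
        rw [e4]; field_simp; ring
  have e6 : (162 * Real.log L ^ 2) * Real.sqrt (32 * Real.log L / L ^ ε) ≤ η := by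
    have : (162 * Real.log L ^ 2) * Real.sqrt (32 * Real.log L / L ^ ε) =
        Real.sqrt ((162 * Real.log L ^ 2) ^ 2 * (32 * Real.log L / L ^ ε)) := by
      rw [Real.sqrt_mul (by positivity), Real.sqrt_sq (by positivity)]
    rw [this, Real.sqrt_le_iff]
    refine ⟨hη.le, ?_⟩
    rw [← mul_div_assoc, div_le_iff₀ hLe]
    calc _ = Real.log L ^ 5 * (162 ^ 2 * 32) := by ring
      _ ≤ _ := hL1
  calc 2 * (1 + 8 * Real.log L) ^ 2 *
      Real.sqrt (2 * L ^ (1 - ε) * (8 * Real.log L) / (L - Real.log 2)) ≤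
      2 * (9 * Real.log L) ^ 2 * Real.sqrt (32 * Real.log L / L ^ ε) := by
        gcongr
        linarith
    _ = (162 * Real.log L ^ 2) * Real.sqrt (32 * Real.log L / L ^ ε) := by ring
    _ ≤ η := e6

theorem err_small (ε η : ℝ) (hε : 0 < ε) (hε1 : ε < 1) (hη : 0 < η) :
    ∃ P : ℕ, ∀ (p : ℕ) [Fact p.Prime] (D : DL p), P ≤ p → ∀ d e : ℕ, 0 < e → e * d = p - 1 →
      (e : ℝ) ≤ (Real.log p) ^ (1 - ε) →
      ∑ h : (ZMod p)ˣ with h ≠ 1 ∧ h ≠ -1, (|CC h| : ℝ) / (Nat.totient (D.oo d h) : ℝ) ≤ η * p := by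
  obtain ⟨c, hc⟩ := Pool.Agent.H.MP_1efb31_co.dv_bound
  have hlog : Tendsto (fun n : ℕ => Real.log (n : ℝ)) atTop atTop :=
    Real.tendsto_log_atTop.comp tendsto_natCast_atTop_atTop
  have E1 := (tendsto_natCast_atTop_atTop (R := ℝ)).eventually (ev1 c (η / 4) (by positivity) (by positivity))
  have E2 := hlog.eventually (ev2 (η / 4) (by positivity))
  have E3 := hlog.eventually (ev3 (η / 4) (by positivity))
  have E4 := hlog.eventually (ev4 ε (η / 4) hε (by positivity))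
  have E5 := hlog.eventually (eventually_ge_atTop (2 : ℝ))
  obtain ⟨P, hP⟩ := eventually_atTop.mp ((E1.and (E2.and (E3.and (E4.and E5)))).and
    (eventually_ge_atTop 3))
  refine ⟨P, fun p hp D hPp d e he hde heL => ?_⟩
  obtain ⟨⟨h1, h2, h3, h4, h5⟩, h6⟩ := hP p hPp
  have hp0 : (3 : ℝ) ≤ p := by exact_mod_cast h6
  have hp2 : p % 2 = 1 := by
    rcases hp.out.eq_two_or_odd with h | h
    · omega
    · exact h
  have hd : 0 < d := by
    rcases Nat.eq_zero_or_pos d with h | h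
    · rw [h, mul_zero] at hde
      omega
    · exact h
  set L := Real.log (p : ℝ) with hL
  have hL1 : (1 : ℝ) ≤ L := by linarith
  have heL' : (e : ℝ) ≤ L := heL.trans (by
    conv_rhs => rw [← Real.rpow_one L]
    exact Real.rpow_le_rpow_of_exponent_le hL1 (by linarith))
  have hQ : (1 : ℝ) ≤ L ^ 5 := one_le_pow₀ hL1
  have hV : (2 : ℝ) ≤ L ^ 8 := by
    calc (2 : ℝ) ≤ 2 ^ 8 := by norm_num
      _ ≤ L ^ 8 := by gcongr
  have key := D.err_bound hp2 d e hd he hde (L ^ 5) (L ^ 8) hQ hV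
  rw [← hL] at key
  have hlogp2 : Real.log ((p : ℝ) / 2) = L - Real.log 2 := by
    rw [Real.log_div (by positivity) (by norm_num)]
  rw [hlogp2] at key
  have hLpos : 0 < L - Real.log 2 := by
    have := Real.log_two_lt_d9
    linarith
  have hlogV : 0 ≤ Real.log (L ^ 8) := Real.log_nonneg (by linarith)
  -- term 4
  have t4 : 2 * (1 + Real.log (L ^ 8)) ^ 2 *
      Real.sqrt (2 * e * Real.log (L ^ 8) / (L - Real.log 2)) ≤ η / 4 := by
    refine le_trans ?_ h4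
    gcongr
  have t3 : e * L ^ 5 / L ^ 8 ≤ η / 4 := by
    refine le_trans ?_ h3
    gcongr
  -- term 1
  have t1 : (8 * Real.sqrt p + 1) * (e * (d.divisors.card : ℝ)) ≤ η / 4 * p := by
    have hs1 : (1 : ℝ) ≤ Real.sqrt p := by
      rw [Real.one_le_sqrt]; linarith
    have hdp : d ≤ p := by
      have : d ≤ e * d := Nat.le_mul_of_pos_left d he
      omega
    have hτ : ((d.divisors.card : ℝ)) ^ 8 ≤ c * p := by
      have h7 := hc d hd.ne'
      have h8 : c * d ≤ c * p := Nat.mul_le_mul_left c hdp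
      exact_mod_cast h7.trans h8
    have h9 : (9 * Real.sqrt p * (L * (d.divisors.card : ℝ))) ^ 8 ≤ (η / 4 * p) ^ 8 := by
      have hsq : Real.sqrt p ^ 8 = (p : ℝ) ^ 4 := by
        have : Real.sqrt p ^ 2 = p := Real.sq_sqrt (by positivity)
        calc Real.sqrt p ^ 8 = (Real.sqrt p ^ 2) ^ 4 := by ring
          _ = _ := by rw [this]
      calc (9 * Real.sqrt p * (L * (d.divisors.card : ℝ))) ^ 8 =
          9 ^ 8 * Real.sqrt p ^ 8 * L ^ 8 * (d.divisors.card : ℝ) ^ 8 := by ring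
        _ ≤ 9 ^ 8 * Real.sqrt p ^ 8 * L ^ 8 * (c * p) := by gcongr
        _ = (9 ^ 8 * c * L ^ 8) * p ^ 5 := by rw [hsq]; ring
        _ ≤ ((η / 4) ^ 8 * p ^ 3) * p ^ 5 := by gcongr
        _ = _ := by ring
    have h10 := le_of_pow_le_pow_left₀ (by norm_num) (by positivity) h9
    calc (8 * Real.sqrt p + 1) * (e * (d.divisors.card : ℝ)) ≤
        (8 * Real.sqrt p + Real.sqrt p) * (L * (d.divisors.card : ℝ)) := by gcongr
      _ = 9 * Real.sqrt p * (L * (d.divisors.card : ℝ)) := by ring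
      _ ≤ _ := h10
  calc _ ≤ _ := key
    _ ≤ η / 4 * p + p * (η / 4 + η / 4 + η / 4) := by gcongr
    _ = _ := by ring

end Pool.Agent.U332.OI
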