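import Mathlib
import Pool.Agent.U332.OI.Alm2
import Pool.Agent.U332.OI.Char
import Pool.Agent.U332.OI.Fin

/-! # From the mean square to the number of irregular indices in an orbit -/

namespace Pool.Agent.U332.OI

open Finset

theorem am_gm' {ι : Type} (s : Finset ι) (hs : s.Nonempty) (f : ι → ℝ) (hf : ∀ i ∈ s, 0 ≤ f i) :
    ∏ i ∈ s, f i ≤ ((∑ i ∈ s, f i) / s.card) ^ s.card := by
  have hc : (0 : ℝ) < s.card := by exact_mod_cast hs.card_pos
  have h := Real.geom_mean_le_arith_mean_weighted s (fun _ => (1 : ℝ) / s.card) f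
    (fun i _ => by positivity) (by rw [sum_const, nsmul_eq_mul]; field_simp) hf
  have h1 : ∏ i ∈ s, f i = (∏ i ∈ s, f i ^ ((1 : ℝ) / s.card)) ^ s.card := by
    rw [← prod_pow]
    apply prod_congr rfl
    intro i hi
    rw [← Real.rpow_natCast, ← Real.rpow_mul (hf i hi), one_div_mul_cancel hc.ne', Real.rpow_one]
  rw [h1]
  apply pow_le_pow_left₀
  · exact prod_nonneg fun i hi => Real.rpow_nonneg (hf i hi) _
  · refine h.trans (le_of_eq ?_)
    rw [← mul_sum]
    ring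

/-- a bound for the error term of the mean square over the characters of order `d = (p - 1) / e`
bounds the number of irregular indices in the orbit -/
theorem orbit_of_err {p : ℕ} [hpf : Fact p.Prime] (D : DL p) (hp3 : 3 ≤ p) (d e : ℕ) (he : Odd e)
    (hde : e * d = p - 1) (ε : ℝ) (hε : 0 < ε) (hε1 : ε < 1)
    (h2 : ∑ h : (ZMod p)ˣ with h ≠ 1 ∧ h ≠ -1, (|CC h| : ℝ) / (Nat.totient (D.oo d h) : ℝ) ≤
      ε * p) :
    (2 - ε) ^ (Nat.totient d) * (p : ℝ) ^ (2 * (irr p e).card) ≤ (p : ℝ) ^ (Nat.totient d) ∧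
      2 * (irr p e).card < Nat.totient d := by
  have hp2 : p % 2 = 1 := by
    rcases hpf.out.eq_two_or_odd with h | h
    · omega
    · exact h
  have hd0 : 0 < d := by
    rcases Nat.eq_zero_or_pos d with h | h
    · rw [h, mul_zero] at hde; omega
    · exact h
  set r := (irr p e).card with hr
  have h1 := D.pow_le_prod hp3 d e he hde
  rw [← hr] at h1
  have h3 := D.mean_bound hp2 d e he hde
  have hcard : (primitiveRoots d ℂ).card = Nat.totient d :=
    (Complex.isPrimitiveRoot_exp d hd0.ne').card_primitiveRoots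
  have hφ : 0 < Nat.totient d := Nat.totient_pos.mpr hd0
  have hφ' : (0 : ℝ) < Nat.totient d := by exact_mod_cast hφ
  have hne : (primitiveRoots d ℂ).Nonempty := by
    rw [← card_pos, hcard]; exact hφ
  have hp0 : (0 : ℝ) < p := by positivity
  have h4 : (∑ z ∈ primitiveRoots d ℂ, ‖Polynomial.aeval z D.f‖ ^ 2) / Nat.totient d ≤
      p * (2 + ε) / 4 := by
    rw [div_le_iff₀ hφ']
    have h5 : (Nat.totient d : ℝ) * (2 * p +
        ∑ h : (ZMod p)ˣ with h ≠ 1 ∧ h ≠ -1, (|CC h| : ℝ) / (Nat.totient (D.oo d h) : ℝ)) ≤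
        Nat.totient d * (2 * p + ε * p) := by gcongr
    nlinarith
  have h5 := am_gm' (primitiveRoots d ℂ) hne (fun z => ‖Polynomial.aeval z D.f‖ ^ 2)
    (fun z _ => by positivity)
  rw [hcard, prod_pow] at h5
  have h6 : ((∑ z ∈ primitiveRoots d ℂ, ‖Polynomial.aeval z D.f‖ ^ 2) / Nat.totient d) ^
      (Nat.totient d) ≤ (p * (2 + ε) / 4) ^ (Nat.totient d) := by
    apply pow_le_pow_left₀ _ h4
    positivity
  have h7 : (p : ℝ) ^ (2 * r) ≤ (p * (2 + ε) / 4) ^ (Nat.totient d) := by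
    calc (p : ℝ) ^ (2 * r) = ((p : ℝ) ^ r) ^ 2 := by rw [mul_comm, pow_mul]
      _ ≤ (∏ z ∈ primitiveRoots d ℂ, ‖Polynomial.aeval z D.f‖) ^ 2 := by gcongr
      _ ≤ _ := h5.trans h6
  have h8 : 0 ≤ 2 - ε := by linarith
  have h9 : (2 - ε) ^ (Nat.totient d) * (p : ℝ) ^ (2 * r) ≤ (p : ℝ) ^ (Nat.totient d) := by
   calc (2 - ε) ^ (Nat.totient d) * (p : ℝ) ^ (2 * r) ≤
      (2 - ε) ^ (Nat.totient d) * (p * (2 + ε) / 4) ^ (Nat.totient d) := by gcongr
    _ = ((2 - ε) * (p * (2 + ε) / 4)) ^ (Nat.totient d) := by rw [mul_pow]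
    _ ≤ (p : ℝ) ^ (Nat.totient d) := by
        apply pow_le_pow_left₀
        · positivity
        · nlinarith [mul_pos hp0 (mul_pos hε hε)]
  refine ⟨h9, ?_⟩
  have h10 : (1 : ℝ) < (2 - ε) ^ (Nat.totient d) := one_lt_pow₀ (by linarith) hφ.ne'
  have h11 : (p : ℝ) ^ (2 * r) < (p : ℝ) ^ (Nat.totient d) := by
    have h12 : 0 < (p : ℝ) ^ (2 * r) := by positivity
    nlinarith
  have hp1 : (1 : ℝ) < p := by
    have : 1 < p := by omega
    exact_mod_cast this
  exact (pow_lt_pow_iff_right₀ hp1).mp h11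

end Pool.Agent.U332.OI
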